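import Pool.Agent.U181.BK.Move

/-!
# Order automorphisms, and the groups `Aut w K Z`
-/

set_option autoImplicit false
set_option linter.unusedSectionVars false

namespace Pool.Agent.U181.BK

open Monoid

variable {X H : Type} [LinearOrder X] [Group H]

theorem blk_inv_el (θ : X ≃o X) (τ : X → MulAut H) (x : X) (h : H) :
    (blk θ τ)⁻¹ (el x h) = el (θ.symm x) ((τ (θ.symm x))⁻¹ h) := by
  show blkHom θ.symm (fun x => (τ (θ.symm x)).symm.toMonoidHom) (el x h) = _
  rw [blkHom_el]
  rfl

theorem MulAut.ext_el {α β : MulAut (FP X H)} (h : ∀ x (k : H), α (el x k) = β (el x k)) :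
    α = β := by
  have : (α : FP X H →* FP X H) = (β : FP X H →* FP X H) := hom_ext h
  ext x
  exact DFunLike.congr_fun this x

theorem filter_image (θ : X ≃o X) (Z : Finset X) (u : X) :
    (Z.image θ).filter (· < θ u) = (Z.filter (· < u)).image θ := by
  ext x
  simp only [Finset.mem_filter, Finset.mem_image]
  constructor
  · rintro ⟨⟨z, hz, rfl⟩, h⟩
    exact ⟨z, ⟨hz, θ.lt_iff_lt.1 h⟩, rfl⟩
  · rintro ⟨z, ⟨hz, h⟩, rfl⟩
    exact ⟨⟨z, hz, rfl⟩, θ.lt_iff_lt.2 h⟩

theorem blk_pr (w : H) (θ : X ≃o X) (Z : Finset X) :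
    blk θ (1 : X → MulAut H) (pr w Z) = pr w (Z.image θ) := by
  rw [pr_image w θ Z (θ.strictMono.strictMonoOn _)]
  show (blk θ (1 : X → MulAut H)).toMonoidHom (pr w Z) = _
  rw [map_pr]
  congr 1

theorem blk_yy (w : H) (θ : X ≃o X) (Z : Finset X) (u : X) (h : H) :
    blk θ (1 : X → MulAut H) (yy w Z u h) = yy w (Z.image θ) (θ u) h := by
  unfold yy
  rw [filter_image, map_mul, map_mul, map_inv, blk_pr, blk_el]
  rfl

theorem RR_blk (w : H) (Z : Finset X) (θ : X ≃o X) :
    RR w Z id θ (blk θ (1 : X → MulAut H)) := by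
  refine ⟨fun z _ k => ?_, fun y hy => ?_, fun y hy => ?_⟩
  · rw [id, blk_el]
    rfl
  · rw [Finset.image_id] at hy
    refine map_YS (blk θ (1 : X → MulAut H)).toMonoidHom (fun u hu h => ?_) y hy
    show blk θ (1 : X → MulAut H) (yy w Z u h) ∈ _
    rw [blk_yy]
    refine yy_mem_YS w _ _ ?_ h
    intro hm
    rw [Finset.mem_image] at hm
    obtain ⟨z, hz, e⟩ := hm
    rw [θ.injective e] at hz
    exact hu hz
  · rw [Finset.image_id]
    refine map_YS ((blk θ (1 : X → MulAut H))⁻¹ : MulAut (FP X H)).toMonoidHom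
      (fun u hu h => ?_) y hy
    show (blk θ (1 : X → MulAut H))⁻¹ (yy w (Z.image θ) u h) ∈ _
    have e : yy w (Z.image θ) u h = blk θ (1 : X → MulAut H) (yy w Z (θ.symm u) h) := by
      rw [blk_yy, θ.apply_symm_apply]
    rw [e, MulAut.inv_apply_self]
    refine yy_mem_YS w _ _ ?_ h
    intro hm
    exact hu (Finset.mem_image.2 ⟨_, hm, θ.apply_symm_apply u⟩)

/-- automorphisms acting on the factors outside `Z` -/
theorem RR_out (w : H) (Z : Finset X) (τ : X → MulAut H) (hτ : ∀ z ∈ Z, τ z = 1) :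
    RR w Z id id (blk (OrderIso.refl X) τ) := by
  have hpr : ∀ u, blk (OrderIso.refl X) τ (pr w (Z.filter (· < u))) =
      pr w (Z.filter (· < u)) := by
    intro u
    refine map_pr_fix (blk (OrderIso.refl X) τ).toMonoidHom w _ fun z hz => ?_
    show blk (OrderIso.refl X) τ (el z w) = _
    rw [blk_el, hτ z (Finset.mem_filter.1 hz).1]
    rfl
  have hyy : ∀ u h, blk (OrderIso.refl X) τ (yy w Z u h) = yy w Z u (τ u h) := by
    intro u h
    unfold yy
    rw [map_mul, map_mul, map_inv, hpr, blk_el]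
    rfl
  refine ⟨fun z hz k => ?_, fun y hy => ?_, fun y hy => ?_⟩
  · rw [id, blk_el, hτ z hz]
    rfl
  · refine map_YS (blk (OrderIso.refl X) τ).toMonoidHom (fun u hu h => ?_) y hy
    rw [Finset.image_id] at hu ⊢
    show blk (OrderIso.refl X) τ (yy w Z u h) ∈ _
    rw [hyy]
    exact yy_mem_YS w _ _ hu _
  · refine map_YS ((blk (OrderIso.refl X) τ)⁻¹ : MulAut (FP X H)).toMonoidHom
      (fun u hu h => ?_) y hy
    rw [Finset.image_id] at hu ⊢
    show (blk (OrderIso.refl X) τ)⁻¹ (yy w Z u h) ∈ _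
    have e : yy w Z u h = blk (OrderIso.refl X) τ (yy w Z u ((τ u)⁻¹ h)) := by
      rw [hyy, MulAut.apply_inv_self]
    rw [e, MulAut.inv_apply_self]
    exact yy_mem_YS w _ _ hu _

theorem blk_mul (θ : X ≃o X) (τ : X → MulAut H) :
    blk θ τ = blk θ (1 : X → MulAut H) * blk (OrderIso.refl X) τ := by
  apply MulAut.ext_el
  intro x k
  rw [MulAut.mul_apply, blk_el, blk_el, blk_el]
  rfl

theorem blk_mul' (τ σ : X → MulAut H) :
    blk (OrderIso.refl X) (τ * σ) = blk (OrderIso.refl X) τ * blk (OrderIso.refl X) σ := by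
  apply MulAut.ext_el
  intro x k
  rw [MulAut.mul_apply, blk_el, blk_el, blk_el]
  rfl

/-! ### monotonicity -/

theorem pr_split (w : H) (v : X) (Z : Finset X) (hv : v ∉ Z) :
    pr w Z = pr w (Z.filter (· < v)) * pr w (Z.filter (v < ·)) := by
  have e : Z = Z.filter (· < v) ∪ Z.filter (v < ·) := by
    ext x
    simp only [Finset.mem_union, Finset.mem_filter]
    constructor
    · intro hx
      rcases lt_trichotomy x v with h | h | h
      · exact Or.inl ⟨hx, h⟩
      · rw [h] at hx
        exact absurd hx hv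
      · exact Or.inr ⟨hx, h⟩
    · rintro (⟨h, _⟩ | ⟨h, _⟩) <;> exact h
  conv_lhs => rw [e]
  apply pr_union
  intro a ha b hb
  exact (Finset.mem_filter.1 ha).2.trans (Finset.mem_filter.1 hb).2

theorem pr_insert_yy (w : H) (v : X) (Z : Finset X) (hv : v ∉ Z) :
    pr w (insert v Z) = yy w Z v w * pr w Z := by
  rw [pr_insert w v Z hv, pr_split w v Z hv]
  unfold yy
  group

theorem yy_insert_lt (w : H) (v : X) (Z : Finset X) {u : X} (h : u ≤ v) (k : H) :
    yy w (insert v Z) u k = yy w Z u k := by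
  unfold yy
  rw [filter_insert_ge Z h]

theorem yy_insert_gt (w : H) (v : X) (Z : Finset X) (hv : v ∉ Z) {u : X} (h : v < u) (k : H) :
    yy w (insert v Z) u k = yy w Z v w * yy w Z u k * (yy w Z v w)⁻¹ := by
  have e : pr w ((insert v Z).filter (· < u)) = yy w Z v w * pr w (Z.filter (· < u)) := by
    rw [filter_insert_lt Z h, pr_insert_yy w v _ (fun h' => hv (Finset.mem_filter.1 h').1)]
    congr 1
    unfold yy
    have e2 : (Z.filter (· < u)).filter (· < v) = Z.filter (· < v) := by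
      ext x
      simp only [Finset.mem_filter]
      constructor
      · rintro ⟨⟨h1, _⟩, h2⟩
        exact ⟨h1, h2⟩
      · rintro ⟨h1, h2⟩
        exact ⟨⟨h1, h2.trans h⟩, h2⟩
    rw [e2]
  unfold yy at e ⊢
  rw [e]
  group

theorem Good.ins {w : H} {K : Set H} {Z : Finset X} {α : MulAut (FP X H)} (ha : Good w K Z α)
    (v : X) (hv : v ∉ Z) : Good w K (insert v Z) α := by
  have hY : ∀ k : H, (el v k : FP X H) = (pr w (Z.filter (· < v)))⁻¹ * yy w Z v k *
      pr w (Z.filter (· < v)) := by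
    intro k
    unfold yy
    group
  have hp : pr w (Z.filter (· < v)) ∈ (FZ Z : Subgroup (FP X H)) :=
    FZ_mono (Finset.filter_subset (· < v) Z) (pr_mem_FZ w _)
  have hval : ∀ k : H, α (el v k) = ((α (pr w (Z.filter (· < v))))⁻¹ * pr w (Z.filter (· < v))) *
      el v k * ((α (pr w (Z.filter (· < v))))⁻¹ * pr w (Z.filter (· < v)))⁻¹ := by
    intro k
    conv_lhs => rw [hY k]
    rw [map_mul, map_mul, map_inv, ha.fix v hv k]
    unfold yy
    group
  have hsub : Z ⊆ insert v Z := Finset.subset_insert v Z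
  have hc : (α (pr w (Z.filter (· < v))))⁻¹ * pr w (Z.filter (· < v)) ∈
      (FZ (insert v Z) : Subgroup (FP X H)) :=
    FZ_mono hsub (mul_mem (inv_mem (ha.maps _ hp)) hp)
  refine ⟨?_, ?_, ?_, ?_⟩
  · have h2 : (FZ (insert v Z) : Subgroup (FP X H)) ≤
        (FZ (insert v Z) : Subgroup (FP X H)).comap α.toMonoidHom := by
      conv_lhs => rw [FZ, ]
      rw [Subgroup.closure_le]
      rintro y ⟨z, hz, k, rfl⟩
      show α (el z k) ∈ (FZ (insert v Z) : Subgroup (FP X H))
      rw [Finset.mem_insert] at hz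
      rcases hz with rfl | hz
      · rw [hval k]
        exact mul_mem (mul_mem hc (el_mem_FZ (Finset.mem_insert_self _ _) k)) (inv_mem hc)
      · exact FZ_mono hsub (ha.maps _ (el_mem_FZ hz k))
    exact fun x hx => h2 hx
  · rw [pr_insert_yy w v Z hv, map_mul, ha.fix v hv, ha.prd]
  · intro u hu k
    rw [Finset.mem_insert, not_or] at hu
    rcases le_or_gt u v with h | h
    · rw [yy_insert_lt w v Z h k, ha.fix u hu.2]
    · rw [yy_insert_gt w v Z hv h k, map_mul, map_mul, map_inv, ha.fix u hu.2, ha.fix v hv]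
  · intro z hz k hk
    rw [Finset.mem_insert] at hz
    rcases hz with rfl | hz
    · refine ⟨z, Finset.mem_insert_self _ _, k, hk, ?_⟩
      rw [hval k]
      exact (isConj_iff.2 ⟨_, rfl⟩ : IsConj (el z k) _).symm
    · obtain ⟨z', hz', k', hk', h⟩ := ha.per z hz k hk
      exact ⟨z', hsub hz', k', hk', h⟩

theorem Good.mono {w : H} {K : Set H} {Z W : Finset X} {α : MulAut (FP X H)} (ha : Good w K Z α)
    (h : Z ⊆ W) : Good w K W α := by
  have key : ∀ V : Finset X, Good w K (Z ∪ V) α := by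
    intro V
    induction V using Finset.induction_on with
    | empty => rw [Finset.union_empty]; exact ha
    | insert v V _ ih =>
      by_cases hv : v ∈ Z ∪ V
      · have e : Z ∪ Insert.insert v V = Z ∪ V := by
          rw [Finset.union_insert, Finset.insert_eq_self.2 hv]
        rw [e]
        exact ih
      · rw [Finset.union_insert]
        exact ih.ins v hv
  have := key W
  rwa [Finset.union_eq_right.2 h] at this

theorem Aut.mono {w : H} {K : Set H} {Z W : Finset X} (h : Z ⊆ W) : Aut w K Z ≤ Aut w K W :=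
  fun _ ha => ⟨ha.1.mono h, ha.2.mono h⟩

/-- it suffices to check the generators -/
theorem maps_of {Z : Finset X} {α : MulAut (FP X H)}
    (h : ∀ z ∈ Z, ∀ k : H, α (el z k) ∈ (FZ Z : Subgroup (FP X H))) :
    ∀ x ∈ (FZ Z : Subgroup (FP X H)), α x ∈ (FZ Z : Subgroup (FP X H)) := by
  have h2 : (FZ Z : Subgroup (FP X H)) ≤ (FZ Z : Subgroup (FP X H)).comap α.toMonoidHom := by
    conv_lhs => rw [FZ]
    rw [Subgroup.closure_le]
    rintro y ⟨z, hz, k, rfl⟩
    exact h z hz k
  exact fun x hx => h2 hx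

theorem brd_mem_Aut (w : H) (K : Set H) (Z : Finset X) {s t : X} (hs : s ∈ Z) (ht : t ∈ Z)
    (hst : s < t) : brd w hst ∈ Aut w K Z := by
  have hsub : ({s, t} : Finset X) ⊆ Z := by
    intro x hx
    rw [Finset.mem_insert, Finset.mem_singleton] at hx
    rcases hx with rfl | rfl
    · exact hs
    · exact ht
  refine Aut.mono hsub ?_
  have hms : s ∈ ({s, t} : Finset X) := Finset.mem_insert_self _ _
  have hmt : t ∈ ({s, t} : Finset X) := Finset.mem_insert_of_mem (Finset.mem_singleton_self _)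
  have hpr : pr w ({s, t} : Finset X) = el s w * el t w := by
    have e : ({s, t} : Finset X) = {s} ∪ {t} := rfl
    rw [e, pr_union, pr_singleton, pr_singleton]
    intro a ha b hb
    rw [Finset.mem_singleton] at ha hb
    rw [ha, hb]
    exact hst
  have hp1 : brd w hst (pr w ({s, t} : Finset X)) = pr w ({s, t} : Finset X) := by
    rw [hpr, map_mul, brd_el, brd_el, brdFun_s, brdFun_t w hst]
    group
  have hfix : ∀ u ∉ ({s, t} : Finset X), ∀ h : H,
      brd w hst (yy w {s, t} u h) = yy w {s, t} u h := by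
    intro u hu h
    rw [Finset.mem_insert, Finset.mem_singleton, not_or] at hu
    rcases cases5 s t u with h1 | h1 | ⟨h1, h2⟩ | h1 | h1
    · exact absurd h1 hu.1
    · exact absurd h1 hu.2
    · have e : (({s, t} : Finset X)).filter (· < u) = {s} := by
        rw [Finset.filter_insert, if_pos h1, Finset.filter_singleton, if_neg (not_lt.2 h2.le)]
        rfl
      unfold yy
      rw [e, pr_singleton, map_mul, map_mul, map_inv, brd_el, brd_el, brdFun_s,
        brdFun_mid w h1 h2]
      group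
    · have e : (({s, t} : Finset X)).filter (· < u) = ∅ := by
        rw [Finset.filter_insert, if_neg (not_lt.2 h1.le), Finset.filter_singleton,
          if_neg (not_lt.2 (h1.trans hst).le)]
      unfold yy
      rw [e, pr_empty, map_mul, map_mul, map_inv, map_one, brd_el, brdFun_out w hst (Or.inl h1)]
    · have e : (({s, t} : Finset X)).filter (· < u) = {s, t} := by
        rw [Finset.filter_insert, if_pos (hst.trans h1), Finset.filter_singleton, if_pos h1]
      unfold yy
      rw [e, map_mul, map_mul, map_inv, hp1, brd_el, brdFun_out w hst (Or.inr h1)]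
  have inv_of : ∀ x : FP X H, brd w hst x = x → (brd w hst)⁻¹ x = x := by
    intro x hx
    conv_lhs => rw [← hx]
    rw [MulAut.inv_apply_self]
  constructor
  · refine ⟨maps_of fun z hz k => ?_, hp1, hfix, fun z hz k hk => ?_⟩
    · rw [Finset.mem_insert, Finset.mem_singleton] at hz
      rw [brd_el]
      rcases hz with rfl | rfl
      · rw [brdFun_s]
        exact mul_mem (mul_mem (el_mem_FZ hms w) (el_mem_FZ hmt k)) (inv_mem (el_mem_FZ hms w))
      · rw [brdFun_t w hst]
        exact el_mem_FZ hms k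
    · rw [Finset.mem_insert, Finset.mem_singleton] at hz
      rw [brd_el]
      rcases hz with rfl | rfl
      · refine ⟨t, hmt, k, hk, ?_⟩
        rw [brdFun_s]
        exact (isConj_iff.2 ⟨_, rfl⟩ : IsConj (el t k) _).symm
      · refine ⟨s, hms, k, hk, ?_⟩
        rw [brdFun_t w hst]
  · refine ⟨maps_of fun z hz k => ?_, inv_of _ hp1, fun u hu h => inv_of _ (hfix u hu h),
      fun z hz k hk => ?_⟩
    · rw [Finset.mem_insert, Finset.mem_singleton] at hz
      rw [brd_inv_el]
      rcases hz with rfl | rfl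
      · rw [brdInvFun_s]
        exact el_mem_FZ hmt k
      · rw [brdInvFun_t w hst]
        exact mul_mem (mul_mem (inv_mem (el_mem_FZ hmt w)) (el_mem_FZ hms k)) (el_mem_FZ hmt w)
    · rw [Finset.mem_insert, Finset.mem_singleton] at hz
      rw [brd_inv_el]
      rcases hz with rfl | rfl
      · refine ⟨t, hmt, k, hk, ?_⟩
        rw [brdInvFun_s]
      · refine ⟨s, hms, k, hk, ?_⟩
        rw [brdInvFun_t w hst]
        refine (isConj_iff.2 ⟨(el z w)⁻¹, ?_⟩ : IsConj (el s k) _).symm
        rw [inv_inv]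

/-- the automorphisms of `H` which fix `w` and map `K` to itself -/
def Dia (w : H) (K : Set H) : Subgroup (MulAut H) where
  carrier := {σ | σ w = w ∧ (∀ k ∈ K, σ k ∈ K) ∧ ∀ k ∈ K, σ⁻¹ k ∈ K}
  one_mem' := ⟨rfl, fun _ h => h, fun _ h => by rw [inv_one]; exact h⟩
  mul_mem' := by
    rintro σ τ ⟨h1, h2, h3⟩ ⟨h4, h5, h6⟩
    refine ⟨?_, fun k hk => h2 _ (h5 k hk), fun k hk => ?_⟩
    · rw [MulAut.mul_apply, h4, h1]
    · rw [mul_inv_rev, MulAut.mul_apply]
      exact h6 _ (h3 k hk)
  inv_mem' := by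
    rintro σ ⟨h1, h2, h3⟩
    refine ⟨?_, h3, fun k hk => ?_⟩
    · conv_lhs => rw [← h1]
      rw [MulAut.inv_apply_self]
    · rw [inv_inv]
      exact h2 k hk

theorem blk_good (w : H) (K : Set H) (Z : Finset X) (τ : X → MulAut H)
    (hD : ∀ x, τ x ∈ Dia w K) (hZ : ∀ x, x ∉ Z → τ x = 1) :
    Good w K Z (blk (OrderIso.refl X) τ) := by
  have hpr : ∀ V : Finset X, blk (OrderIso.refl X) τ (pr w V) = pr w V := by
    intro V
    refine map_pr_fix (blk (OrderIso.refl X) τ).toMonoidHom w _ fun z _ => ?_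
    show blk (OrderIso.refl X) τ (el z w) = _
    rw [blk_el, (hD z).1]
    rfl
  refine ⟨maps_of fun z hz k => ?_, hpr Z, fun u hu h => ?_, fun z hz k hk => ?_⟩
  · rw [blk_el]
    exact el_mem_FZ hz _
  · unfold yy
    rw [map_mul, map_mul, map_inv, hpr, blk_el, hZ u hu]
    rfl
  · refine ⟨z, hz, τ z k, (hD z).2.1 k hk, ?_⟩
    rw [blk_el]
    exact IsConj.refl _

theorem blk_inv (τ : X → MulAut H) :
    (blk (OrderIso.refl X) τ)⁻¹ = blk (OrderIso.refl X) τ⁻¹ := by
  rw [inv_eq_iff_mul_eq_one, ← blk_mul', mul_inv_cancel]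
  apply MulAut.ext_el
  intro x k
  rw [blk_el]
  rfl

theorem blk_mem_Aut (w : H) (K : Set H) (Z : Finset X) (τ : X → MulAut H)
    (hD : ∀ x, τ x ∈ Dia w K) (hZ : ∀ x, x ∉ Z → τ x = 1) :
    blk (OrderIso.refl X) τ ∈ Aut w K Z := by
  refine ⟨blk_good w K Z τ hD hZ, ?_⟩
  rw [blk_inv]
  refine blk_good w K Z τ⁻¹ (fun x => inv_mem (hD x)) (fun x hx => ?_)
  rw [Pi.inv_apply, hZ x hx, inv_one]

end Pool.Agent.U181.BK
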