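import Mathlib

/-!
# Braided systems of automorphisms of free products over a linear order: definitions
-/

set_option autoImplicit false

namespace Pool.Agent.U181.BK

open Monoid

/-- the free product of copies `H_x` of the group `H`, `x` in `X` -/
def FP (X H : Type) [Group H] : Type := CoprodI (fun _ : X => H)

instance instGroupFP (X H : Type) [Group H] : Group (FP X H) :=
  (inferInstance : Group (CoprodI (fun _ : X => H)))

section defs

variable {X H : Type} [LinearOrder X] [Group H]

/-- the inclusion of `H_x` in the free product; `el x h` is written `h_x` in the comments -/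
def el (x : X) : H →* FP X H := (CoprodI.of (M := fun _ : X => H) (i := x) : H →* CoprodI fun _ : X => H)

/-- the homomorphism given by homomorphisms of the factors -/
def lft {M : Type} [Group M] (f : X → H →* M) : FP X H →* M :=
  (CoprodI.lift f : CoprodI (fun _ : X => H) →* M)

theorem lft_el {M : Type} [Group M] (f : X → H →* M) (x : X) (k : H) : lft f (el x k) = f x k :=
  CoprodI.lift_of f k

theorem FP_induction {p : FP X H → Prop} (y : FP X H) (one : p 1) (of : ∀ (x : X) (k : H), p (el x k))
    (mul : ∀ x y, p x → p y → p (x * y)) : p y :=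
  CoprodI.induction_on (motive := p) y one of mul

/-- the product of the elements `w_z`, `z` in `Z`, in increasing order -/
noncomputable def pr (w : H) (Z : Finset X) : FP X H :=
  ((Z.sort (· ≤ ·)).map (fun z => el z w)).prod

/-- the element `p h_u p⁻¹`, where `p` is the ordered product of the `w_z` with `z` in `Z`, `z < u` -/
noncomputable def yy (w : H) (Z : Finset X) (u : X) (h : H) : FP X H :=
  pr w (Z.filter (· < u)) * el u h * (pr w (Z.filter (· < u)))⁻¹

/-- the subgroup generated by the `H_z`, `z` in `Z` -/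
def FZ (Z : Finset X) : Subgroup (FP X H) :=
  Subgroup.closure {x | ∃ z ∈ Z, ∃ h : H, x = el z h}

/-- one half of the conditions for `α` to be in the group `Aut w K Z` below -/
structure Good (w : H) (K : Set H) (Z : Finset X) (α : MulAut (FP X H)) : Prop where
  maps : ∀ x ∈ (FZ Z : Subgroup (FP X H)), α x ∈ (FZ Z : Subgroup (FP X H))
  prd : α (pr w Z) = pr w Z
  fix : ∀ u ∉ Z, ∀ h : H, α (yy w Z u h) = yy w Z u h
  per : ∀ z ∈ Z, ∀ k ∈ K, ∃ z' ∈ Z, ∃ k' ∈ K, IsConj (α (el z k)) (el z' k')

theorem Good.one (w : H) (K : Set H) (Z : Finset X) : Good w K Z 1 :=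
  ⟨fun x hx => hx, rfl, fun _ _ _ => rfl, fun z hz k hk => ⟨z, hz, k, hk, IsConj.refl _⟩⟩

theorem Good.mul {w : H} {K : Set H} {Z : Finset X} {α β : MulAut (FP X H)} (ha : Good w K Z α)
    (hb : Good w K Z β) : Good w K Z (α * β) := by
  refine ⟨fun x hx => ha.maps _ (hb.maps x hx), ?_, ?_, ?_⟩
  · rw [MulAut.mul_apply, hb.prd, ha.prd]
  · intro u hu h
    rw [MulAut.mul_apply, hb.fix u hu, ha.fix u hu]
  · intro z hz k hk
    obtain ⟨z', hz', k', hk', h'⟩ := hb.per z hz k hk
    obtain ⟨z'', hz'', k'', hk'', h''⟩ := ha.per z' hz' k' hk'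
    refine ⟨z'', hz'', k'', hk'', ?_⟩
    rw [MulAut.mul_apply]
    exact ((α : FP X H →* FP X H).map_isConj h').trans h''

/-- the group of the automorphisms `α` of the free product such that `α` and its inverse map the
subgroup generated by the `H_z`, `z ∈ Z`, to itself, fix the ordered product of the `w_z`, map `k_z`
for `k ∈ K`, `z ∈ Z` to a conjugate of such an element, and fix the elements `p h_u p⁻¹`, `u ∉ Z`,
where `p` is the ordered product of the `w_z`, `z ∈ Z`, `z < u` -/
def Aut (w : H) (K : Set H) (Z : Finset X) : Subgroup (MulAut (FP X H)) where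
  carrier := {α | Good w K Z α ∧ Good w K Z α⁻¹}
  one_mem' := ⟨Good.one w K Z, by rw [inv_one]; exact Good.one w K Z⟩
  mul_mem' := by
    rintro α β ⟨h1, h2⟩ ⟨h3, h4⟩
    exact ⟨h1.mul h3, by rw [mul_inv_rev]; exact h4.mul h2⟩
  inv_mem' := by
    rintro α ⟨h1, h2⟩
    exact ⟨h2, by rw [inv_inv]; exact h1⟩

/-- the homomorphism given by `h_x ↦ (τ x h)_(f x)` -/
def blkHom (f : X → X) (τ : X → H →* H) : FP X H →* FP X H :=
  lft (fun x => (el (f x)).comp (τ x))

@[simp] theorem blkHom_el (f : X → X) (τ : X → H →* H) (x : X) (h : H) :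
    blkHom f τ (el x h) = el (f x) (τ x h) := by
  unfold blkHom
  rw [lft_el]
  rfl

theorem hom_ext {M : Type} [Group M] {f g : FP X H →* M} (h : ∀ x (k : H), f (el x k) = g (el x k)) :
    f = g := by
  apply MonoidHom.ext
  intro y
  induction y using FP_induction with
  | one => rw [map_one, map_one]
  | of x k => exact h x k
  | mul x y hx hy => rw [map_mul, map_mul, hx, hy]

/-- the automorphism `h_x ↦ (τ x h)_(θ x)` given by an automorphism `θ` of the ordered set `X` and
automorphisms `τ x` of `H` -/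
def blk (θ : X ≃o X) (τ : X → MulAut H) : MulAut (FP X H) :=
  MonoidHom.toMulEquiv (blkHom θ (fun x => (τ x).toMonoidHom))
    (blkHom θ.symm (fun x => (τ (θ.symm x)).symm.toMonoidHom))
    (hom_ext fun x k => by simp)
    (hom_ext fun x k => by simp)

@[simp] theorem blk_el (θ : X ≃o X) (τ : X → MulAut H) (x : X) (h : H) :
    blk θ τ (el x h) = el (θ x) (τ x h) := by
  show blkHom θ (fun x => (τ x).toMonoidHom) (el x h) = _
  rw [blkHom_el]
  rfl

/-- the values of the braiding of `s` and `t` -/
def brdFun (w : H) (s t x : X) : H →* FP X H :=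
  if x = s then (MulAut.conj (el s w)).toMonoidHom.comp (el t)
  else if x = t then el s
  else if s < x ∧ x < t then (MulAut.conj (el s w * (el t w)⁻¹)).toMonoidHom.comp (el x)
  else el x

/-- the values of the inverse of the braiding -/
def brdInvFun (w : H) (s t x : X) : H →* FP X H :=
  if x = s then el t
  else if x = t then (MulAut.conj (el t w)⁻¹).toMonoidHom.comp (el s)
  else if s < x ∧ x < t then (MulAut.conj ((el t w)⁻¹ * el s w)).toMonoidHom.comp (el x)
  else el x

/-- the braiding as a homomorphism -/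
def brdHom (w : H) (s t : X) : FP X H →* FP X H := lft (brdFun w s t)

/-- its inverse -/
def brdInv (w : H) (s t : X) : FP X H →* FP X H := lft (brdInvFun w s t)

theorem brdHom_el (w : H) (s t x : X) (h : H) : brdHom w s t (el x h) = brdFun w s t x h := by
  unfold brdHom
  rw [lft_el]

theorem brdInv_el (w : H) (s t x : X) (h : H) : brdInv w s t (el x h) = brdInvFun w s t x h := by
  unfold brdInv
  rw [lft_el]

section vals

variable (w : H) {s t : X}

theorem brdFun_s (s t : X) (h : H) :
    brdFun w s t s h = el s w * el t h * (el s w)⁻¹ := by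
  unfold brdFun
  rw [if_pos rfl]
  rfl

theorem brdFun_t (hst : s < t) (h : H) : brdFun w s t t h = el s h := by
  unfold brdFun
  rw [if_neg hst.ne', if_pos rfl]

theorem brdFun_mid {x : X} (h1 : s < x) (h2 : x < t) (h : H) :
    brdFun w s t x h = el s w * (el t w)⁻¹ * el x h * (el s w * (el t w)⁻¹)⁻¹ := by
  unfold brdFun
  rw [if_neg h1.ne', if_neg h2.ne, if_pos ⟨h1, h2⟩]
  rfl

theorem brdFun_out (hst : s < t) {x : X} (hx : x < s ∨ t < x) (h : H) :
    brdFun w s t x h = el x h := by
  unfold brdFun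
  have h1 : x ≠ s := by
    rintro rfl
    rcases hx with h | h
    · exact lt_irrefl _ h
    · exact lt_irrefl _ (h.trans hst)
  have h2 : x ≠ t := by
    rintro rfl
    rcases hx with h | h
    · exact lt_irrefl _ (h.trans hst)
    · exact lt_irrefl _ h
  have h3 : ¬ (s < x ∧ x < t) := by
    rintro ⟨h3, h4⟩
    rcases hx with h | h
    · exact lt_irrefl _ (h.trans h3)
    · exact lt_irrefl _ (h.trans h4)
  rw [if_neg h1, if_neg h2, if_neg h3]

theorem brdInvFun_s (s t : X) (h : H) : brdInvFun w s t s h = el t h := by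
  unfold brdInvFun
  rw [if_pos rfl]

theorem brdInvFun_t (hst : s < t) (h : H) :
    brdInvFun w s t t h = (el t w)⁻¹ * el s h * el t w := by
  unfold brdInvFun
  rw [if_neg hst.ne', if_pos rfl]
  show (el t w)⁻¹ * el s h * ((el t w)⁻¹)⁻¹ = _
  rw [inv_inv]

theorem brdInvFun_mid {x : X} (h1 : s < x) (h2 : x < t) (h : H) :
    brdInvFun w s t x h = (el t w)⁻¹ * el s w * el x h * ((el t w)⁻¹ * el s w)⁻¹ := by
  unfold brdInvFun
  rw [if_neg h1.ne', if_neg h2.ne, if_pos ⟨h1, h2⟩]
  rfl

theorem brdInvFun_out (hst : s < t) {x : X} (hx : x < s ∨ t < x) (h : H) :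
    brdInvFun w s t x h = el x h := by
  unfold brdInvFun
  have h1 : x ≠ s := by
    rintro rfl
    rcases hx with h | h
    · exact lt_irrefl _ h
    · exact lt_irrefl _ (h.trans hst)
  have h2 : x ≠ t := by
    rintro rfl
    rcases hx with h | h
    · exact lt_irrefl _ (h.trans hst)
    · exact lt_irrefl _ h
  have h3 : ¬ (s < x ∧ x < t) := by
    rintro ⟨h3, h4⟩
    rcases hx with h | h
    · exact lt_irrefl _ (h.trans h3)
    · exact lt_irrefl _ (h.trans h4)
  rw [if_neg h1, if_neg h2, if_neg h3]

/-- the position of `x` with respect to `s < t` -/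
theorem cases5 (s t x : X) : x = s ∨ x = t ∨ (s < x ∧ x < t) ∨ (x < s ∨ t < x) := by
  rcases lt_trichotomy x s with h | h | h
  · exact Or.inr (Or.inr (Or.inr (Or.inl h)))
  · exact Or.inl h
  · rcases lt_trichotomy x t with h' | h' | h'
    · exact Or.inr (Or.inr (Or.inl ⟨h, h'⟩))
    · exact Or.inr (Or.inl h')
    · exact Or.inr (Or.inr (Or.inr (Or.inr h')))

end vals

theorem brdInv_brdHom (w : H) {s t : X} (hst : s < t) :
    (brdInv w s t).comp (brdHom w s t) = MonoidHom.id _ := by
  apply hom_ext
  intro x k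
  rw [MonoidHom.comp_apply, MonoidHom.id_apply, brdHom_el]
  rcases cases5 s t x with rfl | rfl | ⟨h1, h2⟩ | hx
  · rw [brdFun_s]
    simp only [map_mul, map_inv, brdInv_el, brdInvFun_s, brdInvFun_t w hst]
    group
  · rw [brdFun_t w hst, brdInv_el, brdInvFun_s]
  · rw [brdFun_mid w h1 h2]
    simp only [map_mul, map_inv, brdInv_el, brdInvFun_s, brdInvFun_t w hst, brdInvFun_mid w h1 h2]
    group
  · rw [brdFun_out w hst hx, brdInv_el, brdInvFun_out w hst hx]

theorem brdHom_brdInv (w : H) {s t : X} (hst : s < t) :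
    (brdHom w s t).comp (brdInv w s t) = MonoidHom.id _ := by
  apply hom_ext
  intro x k
  rw [MonoidHom.comp_apply, MonoidHom.id_apply, brdInv_el]
  rcases cases5 s t x with rfl | rfl | ⟨h1, h2⟩ | hx
  · rw [brdInvFun_s, brdHom_el, brdFun_t w hst]
  · rw [brdInvFun_t w hst]
    simp only [map_mul, map_inv, brdHom_el, brdFun_s, brdFun_t w hst]
    group
  · rw [brdInvFun_mid w h1 h2]
    simp only [map_mul, map_inv, brdHom_el, brdFun_s, brdFun_t w hst, brdFun_mid w h1 h2]
    group
  · rw [brdInvFun_out w hst hx, brdHom_el, brdFun_out w hst hx]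

/-- the braiding of `s < t`: `h_s ↦ w_s h_t w_s⁻¹`, `h_t ↦ h_s`,
`h_x ↦ (w_s w_t⁻¹) h_x (w_s w_t⁻¹)⁻¹` for `s < x < t`, and `h_x ↦ h_x` for the other `x` -/
def brd (w : H) {s t : X} (hst : s < t) : MulAut (FP X H) :=
  MonoidHom.toMulEquiv (brdHom w s t) (brdInv w s t) (brdInv_brdHom w hst) (brdHom_brdInv w hst)

theorem brd_el (w : H) {s t : X} (hst : s < t) (x : X) (h : H) :
    brd w hst (el x h) = brdFun w s t x h := brdHom_el w s t x h

theorem brd_inv_el (w : H) {s t : X} (hst : s < t) (x : X) (h : H) :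
    (brd w hst)⁻¹ (el x h) = brdInvFun w s t x h := brdInv_el w s t x h

end defs

end Pool.Agent.U181.BK
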