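import Pool.Agent.U181.BK.Main

/-!
# The groups `Aut w K Z` embed in the groups for `Fin n`
-/

set_option autoImplicit false
set_option linter.unusedSectionVars false

namespace Pool.Agent.U181.BK

open Monoid

section defn

variable {H : Type} [Group H]

/-- the product `w_0 w_1 ⋯ w_(n-1)` in the free product of `n` copies of `H` -/
def prN (w : H) (n : ℕ) : FP (Fin n) H := (List.ofFn fun i : Fin n => (el i w : FP (Fin n) H)).prod

/-- `α` fixes the product `w_0 w_1 ⋯ w_(n-1)` and maps the elements `k_i`, `k ∈ K`, to conjugates of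
such elements -/
structure GoodN (w : H) (K : Set H) (n : ℕ) (α : MulAut (FP (Fin n) H)) : Prop where
  prd : α (prN w n) = prN w n
  per : ∀ i, ∀ k ∈ K, ∃ i', ∃ k' ∈ K, IsConj (α (el i k)) (el i' k')

theorem GoodN.one (w : H) (K : Set H) (n : ℕ) : GoodN w K n 1 :=
  ⟨rfl, fun i k hk => ⟨i, k, hk, IsConj.refl _⟩⟩

theorem GoodN.mul {w : H} {K : Set H} {n : ℕ} {α β : MulAut (FP (Fin n) H)}
    (ha : GoodN w K n α) (hb : GoodN w K n β) : GoodN w K n (α * β) := by
  refine ⟨by rw [MulAut.mul_apply, hb.prd, ha.prd], fun i k hk => ?_⟩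
  obtain ⟨i', k', hk', h⟩ := hb.per i k hk
  obtain ⟨i'', k'', hk'', h'⟩ := ha.per i' k' hk'
  refine ⟨i'', k'', hk'', ?_⟩
  rw [MulAut.mul_apply]
  exact (α.toMonoidHom.map_isConj h).trans h'

/-- the group of the automorphisms `α` of the free product of `n` copies of `H` such that `α` and its
inverse fix the product `w_0 w_1 ⋯ w_(n-1)` and map the elements `k_i`, `k ∈ K`, to conjugates of such
elements -/
def AutN (w : H) (K : Set H) (n : ℕ) : Subgroup (MulAut (FP (Fin n) H)) where
  carrier := {α | GoodN w K n α ∧ GoodN w K n α⁻¹}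
  one_mem' := ⟨GoodN.one w K n, by rw [inv_one]; exact GoodN.one w K n⟩
  mul_mem' := by
    rintro α β ⟨h1, h2⟩ ⟨h3, h4⟩
    exact ⟨h1.mul h3, by rw [mul_inv_rev]; exact h4.mul h2⟩
  inv_mem' := by
    rintro α ⟨h1, h2⟩
    exact ⟨h2, by rw [inv_inv]; exact h1⟩

end defn

variable {X H : Type} [LinearOrder X] [Group H] (Z : Finset X)

/-- the inclusion of the free product of the factors indexed by `Z` -/
noncomputable def up : FP (Fin Z.card) H →* FP X H :=
  lft (fun i => el (Z.orderEmbOfFin rfl i))

theorem up_el (i : Fin Z.card) (k : H) : up Z (el i k) = el (Z.orderEmbOfFin rfl i) k := by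
  unfold up
  rw [lft_el]

open Classical in
/-- the retraction -/
noncomputable def down : FP X H →* FP (Fin Z.card) H :=
  lft (fun x => if h : x ∈ Z then el ((Z.orderIsoOfFin rfl).symm ⟨x, h⟩) else 1)

theorem down_el_of_mem {x : X} (h : x ∈ Z) (k : H) :
    down Z (el x k) = el ((Z.orderIsoOfFin rfl).symm ⟨x, h⟩) k := by
  unfold down
  rw [lft_el, dif_pos h]

theorem down_up (y : FP (Fin Z.card) H) : down Z (up Z y) = y := by
  have h : (down Z).comp (up Z) = MonoidHom.id (FP (Fin Z.card) H) := by
    apply hom_ext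
    intro i k
    rw [MonoidHom.comp_apply, MonoidHom.id_apply, up_el,
      down_el_of_mem Z (Finset.orderEmbOfFin_mem Z rfl i)]
    congr 1
    have : (⟨Z.orderEmbOfFin rfl i, Finset.orderEmbOfFin_mem Z rfl i⟩ : Z) =
        Z.orderIsoOfFin rfl i := Subtype.ext (by rw [Finset.coe_orderIsoOfFin_apply])
    rw [this, OrderIso.symm_apply_apply]
  exact DFunLike.congr_fun h y

theorem up_down (x : FP X H) (hx : x ∈ (FZ Z : Subgroup (FP X H))) : up Z (down Z x) = x := by
  unfold FZ at hx
  induction hx using Subgroup.closure_induction with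
  | mem x hx =>
    obtain ⟨z, hz, k, rfl⟩ := hx
    rw [down_el_of_mem Z hz, up_el, ← Finset.coe_orderIsoOfFin_apply, OrderIso.apply_symm_apply]
  | one => rw [map_one, map_one]
  | mul x y _ _ hx hy => rw [map_mul, map_mul, hx, hy]
  | inv x _ hx => rw [map_inv, map_inv, hx]

theorem up_mem (y : FP (Fin Z.card) H) : up Z y ∈ (FZ Z : Subgroup (FP X H)) := by
  induction y using FP_induction with
  | one => rw [map_one]; exact one_mem _
  | of i k =>
    rw [up_el]
    exact el_mem_FZ (Finset.orderEmbOfFin_mem Z rfl i) k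
  | mul x y hx hy => rw [map_mul]; exact mul_mem hx hy

theorem up_prN (w : H) : up Z (prN w Z.card) = pr w Z := by
  unfold prN pr
  rw [map_list_prod, List.map_ofFn]
  congr 1
  have h := Finset.listMap_orderEmbOfFin_finRange (s := Z) (k := Z.card) rfl
  rw [← h, List.map_map, List.ofFn_eq_map]
  apply List.map_congr_left
  intro i _
  exact up_el Z i w

variable {Z} {w : H} {K : Set H}

/-- the restriction of an element of `Aut w K Z` -/
noncomputable def resHom (α : MulAut (FP X H)) : FP (Fin Z.card) H →* FP (Fin Z.card) H :=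
  (down Z).comp (α.toMonoidHom.comp (up Z))

theorem resHom_apply (α : MulAut (FP X H)) (y : FP (Fin Z.card) H) :
    resHom α y = down Z (α (up Z y)) := rfl

theorem up_resHom {α : MulAut (FP X H)} (h : Good w K Z α) (y : FP (Fin Z.card) H) :
    up Z (resHom α y) = α (up Z y) := up_down Z _ (h.maps _ (up_mem Z y))

theorem resHom_mul {α β : MulAut (FP X H)} (hb : Good w K Z β) (y : FP (Fin Z.card) H) :
    resHom (Z := Z) (α * β) y = resHom α (resHom β y) := by
  rw [resHom_apply, resHom_apply α, up_resHom hb]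
  rfl

theorem resHom_one (y : FP (Fin Z.card) H) : resHom (Z := Z) (1 : MulAut (FP X H)) y = y := by
  rw [resHom_apply]
  exact down_up Z y

/-- the restriction -/
noncomputable def res (α : Aut w K Z) : MulAut (FP (Fin Z.card) H) :=
  MonoidHom.toMulEquiv (resHom α.1) (resHom α.1⁻¹)
    (MonoidHom.ext fun y => by
      rw [MonoidHom.comp_apply, ← resHom_mul α.2.1, inv_mul_cancel, resHom_one]
      rfl)
    (MonoidHom.ext fun y => by
      rw [MonoidHom.comp_apply, ← resHom_mul α.2.2, mul_inv_cancel, resHom_one]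
      rfl)

theorem res_apply (α : Aut w K Z) (y : FP (Fin Z.card) H) : res α y = resHom α.1 y := rfl

theorem res_inv_apply (α : Aut w K Z) (y : FP (Fin Z.card) H) :
    (res α)⁻¹ y = resHom α.1⁻¹ y := rfl

theorem resHom_prN {α : MulAut (FP X H)} (h : Good w K Z α) :
    resHom α (prN w Z.card) = prN w Z.card := by
  rw [resHom_apply, up_prN, h.prd, ← up_prN, down_up]

theorem resHom_per {α : MulAut (FP X H)} (h : Good w K Z α) (i : Fin Z.card) (k : H) (hk : k ∈ K) :
    ∃ i', ∃ k' ∈ K, IsConj (resHom α (el i k)) (el i' k') := by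
  obtain ⟨z, hz, k', hk', hc⟩ := h.per _ (Finset.orderEmbOfFin_mem Z rfl i) k hk
  refine ⟨(Z.orderIsoOfFin rfl).symm ⟨z, hz⟩, k', hk', ?_⟩
  rw [resHom_apply, up_el, ← down_el_of_mem Z hz]
  exact (down Z).map_isConj hc

theorem res_mem (α : Aut w K Z) : res α ∈ AutN w K Z.card :=
  ⟨⟨resHom_prN α.2.1, fun i k hk => resHom_per α.2.1 i k hk⟩,
    ⟨resHom_prN α.2.2, fun i k hk => resHom_per α.2.2 i k hk⟩⟩

/-- the restriction as a homomorphism -/
noncomputable def resN (w : H) (K : Set H) (Z : Finset X) : Aut w K Z →* AutN w K Z.card where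
  toFun α := ⟨res α, res_mem α⟩
  map_one' := by
    apply Subtype.ext
    apply MulEquiv.ext
    intro y
    exact resHom_one y
  map_mul' α β := by
    apply Subtype.ext
    apply MulEquiv.ext
    intro y
    exact resHom_mul β.2.1 y

theorem resN_injective (w : H) (K : Set H) (Z : Finset X) : Function.Injective (resN w K Z) := by
  intro α β hab
  apply Subtype.ext
  apply Good.ext α.2.1 β.2.1
  intro z hz k
  have h1 : resHom α.1 (down Z (el z k)) = resHom β.1 (down Z (el z k)) :=
    DFunLike.congr_fun (congrArg Subtype.val hab) (down Z (el z k))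
  have h2 := congrArg (up Z) h1
  rw [up_resHom α.2.1, up_resHom β.2.1, up_down Z _ (el_mem_FZ hz k)] at h2
  exact h2

end Pool.Agent.U181.BK
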