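import Pool.Agent.U181.BK.Loc

/-!
# Jumps: one element moves to the right past possibly infinitely many others
-/

set_option autoImplicit false
set_option linter.unusedSectionVars false

namespace Pool.Agent.U181.BK

open Monoid

variable {X H : Type} [LinearOrder X] [Group H]

/-- the permutation `η` of `X` is increasing outside `s`, and moves `s` only past elements to the
right of `s` -/
structure IsJump (η : Equiv.Perm X) (s : X) : Prop where
  mono : ∀ x y, x ≠ s → y ≠ s → x < y → η x < η y
  left : ∀ x, x < s → η x < η s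

/-- the values of the jump -/
def jmpFun (w : H) (η : Equiv.Perm X) (s x : X) : H →* FP X H :=
  if s < x ∧ η x < η s then (MulAut.conj (el (η s) w)⁻¹).toMonoidHom.comp (el (η x))
  else el (η x)

/-- the values of the inverse of the jump -/
def jmpInvFun (w : H) (η : Equiv.Perm X) (s v : X) : H →* FP X H :=
  if s < η.symm v ∧ v < η s then (MulAut.conj (el s w)).toMonoidHom.comp (el (η.symm v))
  else el (η.symm v)

/-- the jump as a homomorphism -/
def jmpHom (w : H) (η : Equiv.Perm X) (s : X) : FP X H →* FP X H := lft (jmpFun w η s)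

/-- its inverse -/
def jmpInv (w : H) (η : Equiv.Perm X) (s : X) : FP X H →* FP X H := lft (jmpInvFun w η s)

theorem jmpHom_el (w : H) (η : Equiv.Perm X) (s x : X) (h : H) :
    jmpHom w η s (el x h) = jmpFun w η s x h := by
  unfold jmpHom
  rw [lft_el]

theorem jmpInv_el (w : H) (η : Equiv.Perm X) (s x : X) (h : H) :
    jmpInv w η s (el x h) = jmpInvFun w η s x h := by
  unfold jmpInv
  rw [lft_el]

theorem jmpFun_in (w : H) (η : Equiv.Perm X) {s x : X} (h : s < x ∧ η x < η s) (k : H) :
    jmpFun w η s x k = (el (η s) w)⁻¹ * el (η x) k * el (η s) w := by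
  unfold jmpFun
  rw [if_pos h]
  show (el (η s) w)⁻¹ * el (η x) k * ((el (η s) w)⁻¹)⁻¹ = _
  rw [inv_inv]

theorem jmpFun_out (w : H) (η : Equiv.Perm X) {s x : X} (h : ¬ (s < x ∧ η x < η s)) (k : H) :
    jmpFun w η s x k = el (η x) k := by
  unfold jmpFun
  rw [if_neg h]

theorem jmpInvFun_in (w : H) (η : Equiv.Perm X) {s x : X} (h : s < x ∧ η x < η s) (k : H) :
    jmpInvFun w η s (η x) k = el s w * el x k * (el s w)⁻¹ := by
  unfold jmpInvFun
  rw [η.symm_apply_apply, if_pos h]
  rfl

theorem jmpInvFun_out (w : H) (η : Equiv.Perm X) {s x : X} (h : ¬ (s < x ∧ η x < η s)) (k : H) :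
    jmpInvFun w η s (η x) k = el x k := by
  unfold jmpInvFun
  rw [η.symm_apply_apply, if_neg h]

theorem not_jump_self (η : Equiv.Perm X) (s : X) : ¬ (s < s ∧ η s < η s) :=
  fun h => lt_irrefl _ h.1

theorem jmpInv_jmpHom (w : H) (η : Equiv.Perm X) (s : X) :
    (jmpInv w η s).comp (jmpHom w η s) = MonoidHom.id _ := by
  apply hom_ext
  intro x k
  rw [MonoidHom.comp_apply, MonoidHom.id_apply, jmpHom_el]
  by_cases h : s < x ∧ η x < η s
  · rw [jmpFun_in w η h]
    simp only [map_mul, map_inv, jmpInv_el, jmpInvFun_in w η h,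
      jmpInvFun_out w η (not_jump_self η s)]
    group
  · rw [jmpFun_out w η h, jmpInv_el, jmpInvFun_out w η h]

theorem jmpHom_jmpInv (w : H) (η : Equiv.Perm X) (s : X) :
    (jmpHom w η s).comp (jmpInv w η s) = MonoidHom.id _ := by
  apply hom_ext
  intro v k
  obtain ⟨x, rfl⟩ := η.surjective v
  rw [MonoidHom.comp_apply, MonoidHom.id_apply, jmpInv_el]
  by_cases h : s < x ∧ η x < η s
  · rw [jmpInvFun_in w η h]
    simp only [map_mul, map_inv, jmpHom_el, jmpFun_in w η h,
      jmpFun_out w η (not_jump_self η s)]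
    group
  · rw [jmpInvFun_out w η h, jmpHom_el, jmpFun_out w η h]

/-- the automorphism `h_s ↦ h_(η s)`, `h_x ↦ (w_(η s))⁻¹ h_(η x) w_(η s)` if `s < x` and
`η x < η s`, and `h_x ↦ h_(η x)` for all other `x` -/
def jmp (w : H) (η : Equiv.Perm X) (s : X) : MulAut (FP X H) :=
  MonoidHom.toMulEquiv (jmpHom w η s) (jmpInv w η s) (jmpInv_jmpHom w η s) (jmpHom_jmpInv w η s)

theorem jmp_el (w : H) (η : Equiv.Perm X) (s x : X) (h : H) :
    jmp w η s (el x h) = jmpFun w η s x h := jmpHom_el w η s x h

theorem jmp_inv_el (w : H) (η : Equiv.Perm X) (s x : X) (h : H) :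
    (jmp w η s)⁻¹ (el x h) = jmpInvFun w η s x h := jmpInv_el w η s x h

/-- the finite version -/
structure JR (w : H) (Z : Finset X) (s : X) (f : X → X) (b : MulAut (FP X H)) : Prop where
  self : ∀ k : H, b (el s k) = el (f s) k
  inn : ∀ u ∈ Z, s < u → f u < f s → ∀ k : H, b (el u k) = (el (f s) w)⁻¹ * el (f u) k * el (f s) w
  out : ∀ u ∈ Z, ¬ (s < u ∧ f u < f s) → ∀ k : H, b (el u k) = el (f u) k
  prd : b (pr w Z) = pr w (Z.image f)
  fwd : ∀ y ∈ YS w Z, b y ∈ YS w (Z.image f)
  bwd : ∀ y ∈ YS w (Z.image f), b⁻¹ y ∈ YS w Z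

theorem exists_JR (w : H) (Z : Finset X) : ∀ (n : ℕ) (s : X) (f : X → X), s ∈ Z →
    (∀ x ∈ Z, ∀ y ∈ Z, x ≠ s → y ≠ s → x < y → f x < f y) → (∀ x ∈ Z, x < s → f x < f s) →
    (∀ x ∈ Z, x ≠ s → f x ≠ f s) → (Z.filter (fun u => s < u ∧ f u < f s)).card = n →
    ∃ b ∈ (BX w : Subgroup (MulAut (FP X H))), JR w Z s f b := by
  classical
  intro n
  induction n with
  | zero =>
    intro s f hs hm hl hi hc
    rw [Finset.card_eq_zero, Finset.filter_eq_empty_iff] at hc
    have hmono : StrictMonoOn f (Z : Set X) := by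
      intro x hx y hy hxy
      by_cases h1 : x = s
      · subst h1
        have h2 : ¬ f y < f x := fun h => hc hy ⟨hxy, h⟩
        exact lt_of_le_of_ne (not_lt.1 h2) (hi y hy hxy.ne').symm
      · by_cases h2 : y = s
        · subst h2
          exact hl x hx hxy
        · exact hm x hx y hy h1 h2 hxy
    obtain ⟨b, hb, hR⟩ := conn w Z id f (StrictMonoOn_id Z) hmono
    refine ⟨b, hb, hR.val s hs, fun u hu h1 h2 => absurd ⟨h1, h2⟩ (hc hu),
      fun u hu _ => hR.val u hu, ?_, ?_, ?_⟩
    · have := hR.pr (StrictMonoOn_id Z) hmono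
      rwa [Finset.image_id] at this
    · have := hR.fwd
      rwa [Finset.image_id] at this
    · have := hR.bwd
      rwa [Finset.image_id] at this
  | succ n ih =>
    intro s f hs hm hl hi hc
    set T := Z.filter (fun u => s < u ∧ f u < f s) with hT
    have hne : T.Nonempty := by
      rw [← Finset.card_pos, hc]
      exact Nat.succ_pos n
    obtain ⟨t, ht, hmin⟩ := Finset.exists_min_image T id hne
    have ht' := ht
    rw [hT, Finset.mem_filter] at ht'
    obtain ⟨htZ, hst, hft⟩ := ht'
    -- no element of `Z` between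
    have hbetw : ∀ u ∈ Z, u ≠ s → u ≠ t → u < s ∨ t < u := by
      intro u hu h1 h2
      rcases lt_or_gt_of_ne h1 with h | h
      · exact Or.inl h
      · rcases lt_or_gt_of_ne h2 with h' | h'
        · exfalso
          have h3 : f u < f t := hm u hu t htZ h1 hst.ne' h'
          have h4 : u ∈ T := by
            rw [hT, Finset.mem_filter]
            exact ⟨hu, h, h3.trans hft⟩
          exact absurd (hmin u h4) (not_le.2 h')
        · exact Or.inr h'
    set f' : X → X := fun x => f (Equiv.swap s t x) with hf'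
    have e1 : f' s = f t := by rw [hf']; simp
    have e2 : f' t = f s := by rw [hf']; simp
    have e3 : ∀ u, u ≠ s → u ≠ t → f' u = f u := by
      intro u h1 h2
      rw [hf']
      simp only
      rw [Equiv.swap_apply_of_ne_of_ne h1 h2]
    have himg : Z.image f' = Z.image f := by
      ext x
      rw [Finset.mem_image, Finset.mem_image]
      constructor
      · rintro ⟨u, hu, rfl⟩
        refine ⟨Equiv.swap s t u, ?_, rfl⟩
        by_cases h1 : u = s
        · rw [h1, Equiv.swap_apply_left]
          exact htZ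
        · by_cases h2 : u = t
          · rw [h2, Equiv.swap_apply_right]
            exact hs
          · rw [Equiv.swap_apply_of_ne_of_ne h1 h2]
            exact hu
      · rintro ⟨u, hu, rfl⟩
        refine ⟨Equiv.swap s t u, ?_, ?_⟩
        · by_cases h1 : u = s
          · rw [h1, Equiv.swap_apply_left]
            exact htZ
          · by_cases h2 : u = t
            · rw [h2, Equiv.swap_apply_right]
              exact hs
            · rw [Equiv.swap_apply_of_ne_of_ne h1 h2]
              exact hu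
        · rw [hf']
          simp
    have hts : t ≠ s := hst.ne'
    obtain ⟨b', hb', hJ⟩ := ih t f' htZ (by
      intro x hx y hy h1 h2 hxy
      by_cases h3 : x = s
      · subst h3
        rw [e1]
        have h4 : y ≠ x := hxy.ne'
        rw [e3 y h4 h2]
        rcases hbetw y hy h4 h2 with h | h
        · exact absurd hxy (not_lt.2 h.le)
        · exact hm t htZ y hy hts h4 h
      · by_cases h4 : y = s
        · subst h4
          rw [e1, e3 x h3 h1]
          exact hm x hx t htZ h3 hts (hxy.trans hst)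
        · rw [e3 x h3 h1, e3 y h4 h2]
          exact hm x hx y hy h3 h4 hxy) (by
      intro x hx hxt
      rw [e2]
      by_cases h3 : x = s
      · rw [h3, e1]
        exact hft
      · rw [e3 x h3 hxt.ne]
        rcases hbetw x hx h3 hxt.ne with h | h
        · exact hl x hx h
        · exact absurd hxt (not_lt.2 h.le)) (by
      intro x hx hxt
      rw [e2]
      by_cases h3 : x = s
      · rw [h3, e1]
        exact hft.ne
      · rw [e3 x h3 hxt]
        exact hi x hx h3) (by
      have e : Z.filter (fun u => t < u ∧ f' u < f' t) = T.erase t := by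
        ext u
        rw [Finset.mem_filter, Finset.mem_erase, hT, Finset.mem_filter, e2]
        constructor
        · rintro ⟨hu, h1, h2⟩
          have h3 : u ≠ s := (hst.trans h1).ne'
          rw [e3 u h3 h1.ne'] at h2
          exact ⟨h1.ne', hu, hst.trans h1, h2⟩
        · rintro ⟨h1, hu, h2, h3⟩
          rw [e3 u h2.ne' h1]
          refine ⟨hu, ?_, h3⟩
          rcases hbetw u hu h2.ne' h1 with h | h
          · exact absurd h2 (not_lt.2 h.le)
          · exact h
      rw [e, Finset.card_erase_of_mem ht, hc]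
      rfl)
    have hA : brd w hst ∈ Aut w (∅ : Set H) Z := brd_mem_Aut w ∅ Z hs htZ hst
    refine ⟨b' * (brd w hst)⁻¹, mul_mem hb' (inv_mem (brd_mem_BX w hst)), ?_, ?_, ?_, ?_, ?_, ?_⟩
    · intro k
      rw [MulAut.mul_apply, brd_inv_el, brdInvFun_s, hJ.self k, e2]
    · intro u hu h1 h2 k
      rw [MulAut.mul_apply, brd_inv_el]
      by_cases h3 : u = t
      · subst h3
        rw [brdInvFun_t w hst, map_mul, map_mul, map_inv, hJ.self w, e2,
          hJ.out s hs (fun h => absurd h.1 (not_lt.2 hst.le)) k, e1]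
      · rw [brdInvFun_out w hst (hbetw u hu h1.ne' h3)]
        have h4 : t < u := by
          rcases hbetw u hu h1.ne' h3 with h | h
          · exact absurd h1 (not_lt.2 h.le)
          · exact h
        rw [hJ.inn u hu h4 (by rw [e3 u h1.ne' h3, e2]; exact h2) k, e2, e3 u h1.ne' h3]
    · intro u hu h1 k
      rw [MulAut.mul_apply, brd_inv_el]
      by_cases h2 : u = s
      · subst h2
        rw [brdInvFun_s, hJ.self k, e2]
      · have h3 : u ≠ t := by
          rintro rfl
          exact h1 ⟨hst, hft⟩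
        rw [brdInvFun_out w hst (hbetw u hu h2 h3), hJ.out u hu ?_ k, e3 u h2 h3]
        rw [e3 u h2 h3, e2]
        exact fun h => h1 ⟨hst.trans h.1, h.2⟩
    · rw [MulAut.mul_apply, hA.2.prd, hJ.prd, himg]
    · intro y hy
      rw [MulAut.mul_apply, hA.2.fixY y hy, ← himg]
      exact hJ.fwd y hy
    · intro y hy
      rw [mul_inv_rev, inv_inv, MulAut.mul_apply]
      rw [← himg] at hy
      rw [hA.1.fixY _ (hJ.bwd y hy)]
      exact hJ.bwd y hy

/-- a braid which agrees with the jump on `Z` -/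
theorem exists_jmp (w : H) {η : Equiv.Perm X} {s : X} (hη : IsJump η s) (Z : Finset X)
    (hs : s ∈ Z) : ∃ b ∈ (BX w : Subgroup (MulAut (FP X H))), JR w Z s η b ∧
      ∀ x ∈ (FZ Z : Subgroup (FP X H)), b x = jmp w η s x := by
  obtain ⟨b, hb, hJ⟩ := exists_JR w Z _ s η hs (fun x _ y _ => hη.mono x y)
    (fun x _ => hη.left x) (fun x _ h => fun h' => h (η.injective h')) rfl
  refine ⟨b, hb, hJ, fun x hx => ?_⟩
  unfold FZ at hx
  induction hx using Subgroup.closure_induction with
  | mem x hx =>
    obtain ⟨z, hz, k, rfl⟩ := hx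
    rw [jmp_el]
    by_cases h : s < z ∧ η z < η s
    · rw [jmpFun_in w η h, hJ.inn z hz h.1 h.2 k]
    · rw [jmpFun_out w η h, hJ.out z hz h k]
  | one => rw [map_one, map_one]
  | mul x y _ _ hx hy => rw [map_mul, map_mul, hx, hy]
  | inv x _ hx => rw [map_inv, map_inv, hx]

theorem jmp_pr (w : H) {η : Equiv.Perm X} {s : X} (hη : IsJump η s) (V : Finset X) (hs : s ∈ V) :
    jmp w η s (pr w V) = pr w (V.image η) := by
  obtain ⟨b, _, hJ, he⟩ := exists_jmp w hη V hs
  rw [← he _ (pr_mem_FZ w V), hJ.prd]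

theorem jmp_pr_left (w : H) {η : Equiv.Perm X} {s : X} (hη : IsJump η s) (V : Finset X)
    (hV : ∀ v ∈ V, v < s) : jmp w η s (pr w V) = pr w (V.image η) := by
  have hm : StrictMonoOn η (V : Set X) := by
    intro x hx y hy hxy
    exact hη.mono x y (hV x hx).ne (hV y hy).ne hxy
  rw [pr_image w η V hm]
  show (jmp w η s).toMonoidHom (pr w V) = _
  rw [map_pr]
  congr 1
  apply List.map_congr_left
  intro z hz
  rw [Finset.mem_sort] at hz
  show jmp w η s (el z w) = _
  rw [jmp_el, jmpFun_out w η (fun h => absurd h.1 (not_lt.2 (hV z hz).le))]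

theorem IsJump.lt_iff {η : Equiv.Perm X} {s : X} (hη : IsJump η s) {x y : X} (hx : x ≠ s)
    (hy : y ≠ s) : η x < η y ↔ x < y := by
  constructor
  · intro h
    by_contra h'
    rcases lt_or_eq_of_le (not_lt.1 h') with h1 | h1
    · exact absurd h (not_lt.2 (hη.mono y x hy hx h1).le)
    · rw [h1] at h
      exact lt_irrefl _ h
  · exact hη.mono x y hx hy

theorem jmp_yy (w : H) {η : Equiv.Perm X} {s : X} (hη : IsJump η s) (Z : Finset X) (hs : s ∈ Z)
    (u : X) (hu : u ∉ Z) (h : H) : jmp w η s (yy w Z u h) = yy w (Z.image η) (η u) h := by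
  have hus : u ≠ s := fun h => hu (h ▸ hs)
  unfold yy
  rw [map_mul, map_mul, map_inv, jmp_el]
  rcases lt_or_gt_of_ne hus with h1 | h1
  · have e : (Z.image η).filter (· < η u) = (Z.filter (· < u)).image η := by
      ext x
      simp only [Finset.mem_filter, Finset.mem_image]
      constructor
      · rintro ⟨⟨z, hz, rfl⟩, h2⟩
        refine ⟨z, ⟨hz, ?_⟩, rfl⟩
        by_cases h3 : z = s
        · rw [h3] at h2
          exact absurd h2 (not_lt.2 (hη.left u h1).le)
        · exact (hη.lt_iff h3 hus).1 h2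
      · rintro ⟨z, ⟨hz, h2⟩, rfl⟩
        exact ⟨⟨z, hz, rfl⟩, (hη.lt_iff (h2.trans h1).ne hus).2 h2⟩
    rw [e, jmp_pr_left w hη _ (fun v hv => (Finset.mem_filter.1 hv).2.trans h1),
      jmpFun_out w η (fun h => absurd h.1 (not_lt.2 h1.le))]
  · have hsV : s ∈ Z.filter (· < u) := Finset.mem_filter.2 ⟨hs, h1⟩
    rw [jmp_pr w hη _ hsV]
    by_cases h2 : η u < η s
    · rw [jmpFun_in w η ⟨h1, h2⟩]
      have e : (Z.image η).filter (· < η u) = ((Z.filter (· < u)).erase s).image η := by
        ext x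
        simp only [Finset.mem_filter, Finset.mem_image, Finset.mem_erase]
        constructor
        · rintro ⟨⟨z, hz, rfl⟩, h3⟩
          have h4 : z ≠ s := by
            rintro rfl
            exact absurd h3 (not_lt.2 h2.le)
          exact ⟨z, ⟨h4, hz, (hη.lt_iff h4 hus).1 h3⟩, rfl⟩
        · rintro ⟨z, ⟨h4, hz, h3⟩, rfl⟩
          exact ⟨⟨z, hz, rfl⟩, (hη.lt_iff h4 hus).2 h3⟩
      have e' : (Z.filter (· < u)).image η = ((Z.filter (· < u)).erase s).image η ∪ {η s} := by
        conv_lhs => rw [← Finset.insert_erase hsV]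
        rw [Finset.image_insert, Finset.insert_eq, Finset.union_comm]
      rw [e, e', pr_union, pr_singleton]
      · group
      · intro a ha b hb
        rw [Finset.mem_singleton] at hb
        rw [Finset.mem_image] at ha
        obtain ⟨z, hz, rfl⟩ := ha
        rw [Finset.mem_erase, Finset.mem_filter] at hz
        rw [hb]
        exact ((hη.lt_iff hz.1 hus).2 hz.2.2).trans h2
    · rw [jmpFun_out w η (fun h => h2 h.2)]
      have h3 : η s < η u := lt_of_le_of_ne (not_lt.1 h2) (fun h => hus (η.injective h).symm)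
      have e : (Z.image η).filter (· < η u) = (Z.filter (· < u)).image η := by
        ext x
        simp only [Finset.mem_filter, Finset.mem_image]
        constructor
        · rintro ⟨⟨z, hz, rfl⟩, h4⟩
          refine ⟨z, ⟨hz, ?_⟩, rfl⟩
          by_cases h5 : z = s
          · rw [h5]
            exact h1
          · exact (hη.lt_iff h5 hus).1 h4
        · rintro ⟨z, ⟨hz, h4⟩, rfl⟩
          refine ⟨⟨z, hz, rfl⟩, ?_⟩
          by_cases h5 : z = s
          · rw [h5]
            exact h3
          · exact (hη.lt_iff h5 hus).2 h4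
      rw [e]

theorem jmp_fwd (w : H) {η : Equiv.Perm X} {s : X} (hη : IsJump η s) (Z : Finset X) (hs : s ∈ Z)
    (y : FP X H) (hy : y ∈ YS w Z) : jmp w η s y ∈ YS w (Z.image η) := by
  refine map_YS (jmp w η s).toMonoidHom (fun u hu h => ?_) y hy
  show jmp w η s (yy w Z u h) ∈ _
  rw [jmp_yy w hη Z hs u hu]
  refine yy_mem_YS w _ _ ?_ h
  intro hm
  rw [Finset.mem_image] at hm
  obtain ⟨z, hz, e⟩ := hm
  rw [η.injective e] at hz
  exact hu hz

theorem jmp_bwd (w : H) {η : Equiv.Perm X} {s : X} (hη : IsJump η s) (Z : Finset X) (hs : s ∈ Z)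
    (y : FP X H) (hy : y ∈ YS w (Z.image η)) : (jmp w η s)⁻¹ y ∈ YS w Z := by
  refine map_YS ((jmp w η s)⁻¹ : MulAut (FP X H)).toMonoidHom (fun v hv h => ?_) y hy
  show (jmp w η s)⁻¹ (yy w (Z.image η) v h) ∈ _
  obtain ⟨u, rfl⟩ := η.surjective v
  have hu : u ∉ Z := fun h => hv (Finset.mem_image_of_mem η h)
  rw [← jmp_yy w hη Z hs u hu, MulAut.inv_apply_self]
  exact yy_mem_YS w _ _ hu h

theorem jmp_mem_HX (w : H) (K : Set H) {η : Equiv.Perm X} {s : X} (hη : IsJump η s) :
    jmp w η s ∈ HX w K := by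
  classical
  constructor
  · apply Loc.of_large
    intro Z
    have hs : s ∈ insert s Z := Finset.mem_insert_self s Z
    obtain ⟨b, hb, hJ, he⟩ := exists_jmp w hη (insert s Z) hs
    obtain ⟨W, hW⟩ := (system_Aut (X := X) w K).exists_mem_BX b hb
    refine ⟨insert s Z, Finset.subset_insert s Z, b, ⟨W, hW⟩, ⟨fun z hz k => ?_, fun y hy => ?_,
      fun y hy => ?_⟩⟩
    · rw [MulAut.mul_apply, ← he _ (el_mem_FZ hz k), MulAut.inv_apply_self]
    · rw [MulAut.mul_apply]
      exact hJ.bwd _ (jmp_fwd w hη _ hs y hy)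
    · rw [mul_inv_rev, inv_inv, MulAut.mul_apply]
      exact jmp_bwd w hη _ hs _ (hJ.fwd y hy)
  · apply Loc.of_large
    intro Z'
    set Z := insert s (Z'.image η.symm) with hZ
    have hs : s ∈ Z := Finset.mem_insert_self s _
    obtain ⟨b, hb, hJ, he⟩ := exists_jmp w hη Z hs
    obtain ⟨W, hW⟩ := (system_Aut (X := X) w K).exists_mem_BX b hb
    have hsub : Z' ⊆ Z.image η := by
      intro x hx
      rw [Finset.mem_image]
      exact ⟨η.symm x, Finset.mem_insert_of_mem (Finset.mem_image_of_mem _ hx),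
        η.apply_symm_apply x⟩
    refine ⟨Z.image η, hsub, b⁻¹, inv_mem ⟨W, hW⟩, ⟨fun v hv k => ?_, fun y hy => ?_,
      fun y hy => ?_⟩⟩
    · rw [inv_inv, MulAut.mul_apply]
      rw [Finset.mem_image] at hv
      obtain ⟨z, hz, rfl⟩ := hv
      have hm : (jmp w η s)⁻¹ (el (η z) k) ∈ (FZ Z : Subgroup (FP X H)) := by
        rw [jmp_inv_el]
        by_cases h : s < z ∧ η z < η s
        · rw [jmpInvFun_in w η h]
          exact mul_mem (mul_mem (el_mem_FZ hs w) (el_mem_FZ hz k)) (inv_mem (el_mem_FZ hs w))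
        · rw [jmpInvFun_out w η h]
          exact el_mem_FZ hz k
      rw [he _ hm, MulAut.apply_inv_self]
    · rw [inv_inv, MulAut.mul_apply]
      exact hJ.fwd _ (jmp_bwd w hη _ hs y hy)
    · have e : (b⁻¹⁻¹ * (jmp w η s)⁻¹)⁻¹ = jmp w η s * b⁻¹ := by group
      rw [e, MulAut.mul_apply]
      exact jmp_fwd w hη _ hs _ (hJ.bwd y hy)

end Pool.Agent.U181.BK
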