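import Pool.Agent.U181.BK.Fin

/-!
# Automorphisms which agree on finite parts with elements of `Aut w K Z`
-/

set_option autoImplicit false
set_option linter.unusedSectionVars false

namespace Pool.Agent.U181.BK

open Monoid Pool.Agent.Y110.FJ

variable {X H : Type} [LinearOrder X] [Group H]

theorem YS_le_insert (w : H) (Z : Finset X) (v : X) (hv : v ∉ Z) : YS w (insert v Z) ≤ YS w Z := by
  conv_lhs => rw [YS]
  rw [Subgroup.closure_le]
  rintro y ⟨u, hu, h, rfl⟩
  rw [Finset.mem_insert, not_or] at hu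
  rcases le_or_gt u v with h1 | h1
  · rw [yy_insert_lt w v Z h1]
    exact yy_mem_YS w _ _ hu.2 h
  · rw [yy_insert_gt w v Z hv h1]
    exact mul_mem (mul_mem (yy_mem_YS w _ _ hv w) (yy_mem_YS w _ _ hu.2 h))
      (inv_mem (yy_mem_YS w _ _ hv w))

theorem YS_le (w : H) {Z W : Finset X} (h : Z ⊆ W) : YS w W ≤ YS w Z := by
  have key : ∀ V : Finset X, YS w (Z ∪ V) ≤ YS w Z := by
    intro V
    induction V using Finset.induction_on with
    | empty => rw [Finset.union_empty]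
    | insert v V _ ih =>
      rw [Finset.union_insert]
      by_cases hv : v ∈ Z ∪ V
      · rw [Finset.insert_eq_self.2 hv]
        exact ih
      · exact (YS_le_insert w _ v hv).trans ih
  have := key W
  rwa [Finset.union_eq_right.2 h] at this

theorem P_mem (w : H) {Z W : Finset X} (h : Z ⊆ W) (u : X) :
    pr w (W.filter (· < u)) * (pr w (Z.filter (· < u)))⁻¹ ∈ YS w Z := by
  have key : ∀ V : Finset X, pr w ((Z ∪ V).filter (· < u)) * (pr w (Z.filter (· < u)))⁻¹ ∈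
      YS w Z := by
    intro V
    induction V using Finset.induction_on with
    | empty => rw [Finset.union_empty, mul_inv_cancel]; exact one_mem _
    | insert v V _ ih =>
      rw [Finset.union_insert]
      by_cases hv : v ∈ Z ∪ V
      · rw [Finset.insert_eq_self.2 hv]
        exact ih
      · rcases le_or_gt u v with h1 | h1
        · rw [filter_insert_ge _ h1]
          exact ih
        · have hv' : v ∉ (Z ∪ V).filter (· < u) := fun h' => hv (Finset.mem_filter.1 h').1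
          rw [filter_insert_lt _ h1, pr_insert_yy w v _ hv', mul_assoc]
          refine mul_mem ?_ ih
          have e : yy w ((Z ∪ V).filter (· < u)) v w = yy w (Z ∪ V) v w := by
            unfold yy
            have e2 : ((Z ∪ V).filter (· < u)).filter (· < v) = (Z ∪ V).filter (· < v) := by
              ext x
              simp only [Finset.mem_filter]
              constructor
              · rintro ⟨⟨h3, _⟩, h4⟩
                exact ⟨h3, h4⟩
              · rintro ⟨h3, h4⟩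
                exact ⟨⟨h3, h4.trans h1⟩, h4⟩
            rw [e2]
          rw [e]
          exact YS_le w Finset.subset_union_left (yy_mem_YS w _ _ hv w)
  have := key W
  rwa [Finset.union_eq_right.2 h] at this

theorem yy_mem_FZ (w : H) {Z W : Finset X} (h : Z ⊆ W) {u : X} (hu : u ∈ W) (k : H) :
    yy w Z u k ∈ (FZ W : Subgroup (FP X H)) := by
  unfold yy
  have h1 : pr w (Z.filter (· < u)) ∈ (FZ W : Subgroup (FP X H)) :=
    FZ_mono ((Finset.filter_subset _ Z).trans h) (pr_mem_FZ w _)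
  exact mul_mem (mul_mem h1 (el_mem_FZ hu k)) (inv_mem h1)

/-- to check that `YS w Z` lies in a subgroup it suffices to consider its elements in `FZ W`, and
the elements of `YS w W` -/
theorem YS_ind (w : H) {Z W : Finset X} (h : Z ⊆ W) (S : Subgroup (FP X H))
    (h1 : ∀ y ∈ YS w Z, y ∈ (FZ W : Subgroup (FP X H)) → y ∈ S) (h2 : YS w W ≤ S) :
    YS w Z ≤ S := by
  conv_lhs => rw [YS]
  rw [Subgroup.closure_le]
  rintro y ⟨u, hu, k, rfl⟩
  by_cases hW : u ∈ W
  · exact h1 _ (yy_mem_YS w _ _ hu k) (yy_mem_FZ w h hW k)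
  · set P := pr w (W.filter (· < u)) * (pr w (Z.filter (· < u)))⁻¹ with hP
    have hPm : P ∈ S := by
      refine h1 _ (P_mem w h u) ?_
      exact mul_mem (FZ_mono (Finset.filter_subset _ W) (pr_mem_FZ w _))
        (inv_mem (FZ_mono ((Finset.filter_subset _ Z).trans h) (pr_mem_FZ w _)))
    have e : yy w Z u k = P⁻¹ * yy w W u k * P := by
      rw [hP]
      unfold yy
      group
    show yy w Z u k ∈ S
    rw [e]
    exact mul_mem (mul_mem (inv_mem hPm) (h2 (yy_mem_YS w _ _ hW k))) hPm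

/-- `c` fixes the elements of `FZ Z` if it fixes the generators -/
theorem fix_FZ {Z : Finset X} {c : MulAut (FP X H)} (h : ∀ z ∈ Z, ∀ k : H, c (el z k) = el z k)
    (x : FP X H) (hx : x ∈ (FZ Z : Subgroup (FP X H))) : c x = x := by
  unfold FZ at hx
  induction hx using Subgroup.closure_induction with
  | mem x hx =>
    obtain ⟨z, hz, k, rfl⟩ := hx
    exact h z hz k
  | one => exact map_one c
  | mul x y _ _ hx hy => rw [map_mul, hx, hy]
  | inv x _ hx => rw [map_inv, hx]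

/-- `c` is the identity on `FZ Z` and maps `YS w Z` onto itself -/
structure Tr (w : H) (Z : Finset X) (c : MulAut (FP X H)) : Prop where
  val : ∀ z ∈ Z, ∀ k : H, c (el z k) = el z k
  fwd : ∀ y ∈ YS w Z, c y ∈ YS w Z
  bwd : ∀ y ∈ YS w Z, c⁻¹ y ∈ YS w Z

theorem Tr.rr {w : H} {Z : Finset X} {c : MulAut (FP X H)} (h : Tr w Z c) : RR w Z id id c :=
  ⟨h.val, by rw [Finset.image_id]; exact h.fwd, by rw [Finset.image_id]; exact h.bwd⟩

theorem RR.tr {w : H} {Z : Finset X} {c : MulAut (FP X H)} (h : RR w Z id id c) : Tr w Z c :=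
  ⟨h.val, by have := h.fwd; rwa [Finset.image_id] at this,
    by have := h.bwd; rwa [Finset.image_id] at this⟩

theorem Tr.mul {w : H} {Z : Finset X} {c d : MulAut (FP X H)} (hc : Tr w Z c) (hd : Tr w Z d) :
    Tr w Z (c * d) := (hd.rr.trans hc.rr).tr

theorem Tr.inv {w : H} {Z : Finset X} {c : MulAut (FP X H)} (h : Tr w Z c) : Tr w Z c⁻¹ :=
  h.rr.symm.tr

theorem Tr.one (w : H) (Z : Finset X) : Tr w Z (1 : MulAut (FP X H)) :=
  (RR.of_eq w Z fun _ _ => rfl).tr

theorem Tr.commute {w : H} {K : Set H} {Z : Finset X} {c α : MulAut (FP X H)} (h : Tr w Z c)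
    (ha : Good w K Z α) : c * α * c⁻¹ = α := by
  have := conj_eq h.rr (Tr.one w Z).rr (StrictMonoOn_id Z) ha
  rw [this]
  group

theorem Tr.mono {w : H} {Z W : Finset X} (h : Z ⊆ W) {c : MulAut (FP X H)} (hc : Tr w W c) :
    Tr w Z c := by
  have key : ∀ d : MulAut (FP X H), Tr w W d → ∀ y ∈ YS w Z, d y ∈ YS w Z := by
    intro d hd
    have : YS w Z ≤ (YS w Z).comap d.toMonoidHom := by
      refine YS_ind w h _ (fun y hy hyW => ?_) (fun y hy => ?_)
      · show d y ∈ YS w Z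
        rw [fix_FZ hd.val y hyW]
        exact hy
      · exact YS_le w h (hd.fwd y hy)
    exact fun y hy => this hy
  exact ⟨fun z hz k => hc.val z (h hz) k, key c hc, key c⁻¹ hc.inv⟩

/-- conjugation of `c` by an element of `Aut w K W` -/
theorem Tr.conj {w : H} {K : Set H} {Z W : Finset X} (h : Z ⊆ W) {c b : MulAut (FP X H)}
    (hc : Tr w W c) (hb : b ∈ Aut w K W) : Tr w Z (b⁻¹ * c * b) := by
  have key : ∀ d : MulAut (FP X H), Tr w W d → ∀ y ∈ YS w Z, (b⁻¹ * d * b) y ∈ YS w Z := by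
    intro d hd
    have : YS w Z ≤ (YS w Z).comap (b⁻¹ * d * b).toMonoidHom := by
      refine YS_ind w h _ (fun y hy hyW => ?_) (fun y hy => ?_)
      · show b⁻¹ (d (b y)) ∈ YS w Z
        rw [fix_FZ hd.val (b y) (hb.1.maps y hyW), MulAut.inv_apply_self]
        exact hy
      · show b⁻¹ (d (b y)) ∈ YS w Z
        rw [hb.1.fixY y hy, hb.2.fixY _ (hd.fwd y hy)]
        exact YS_le w h (hd.fwd y hy)
    exact fun y hy => this hy
  refine ⟨fun z hz k => ?_, key c hc, ?_⟩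
  · show b⁻¹ (c (b (el z k))) = el z k
    rw [fix_FZ hc.val _ (hb.1.maps _ (el_mem_FZ (h hz) k)), MulAut.inv_apply_self]
  · have e : (b⁻¹ * c * b)⁻¹ = b⁻¹ * c⁻¹ * b := by group
    rw [e]
    exact key c⁻¹ hc.inv

/-- the union of the groups `Aut w K Z`, `Z` finite -/
def AX (w : H) (K : Set H) : Subgroup (MulAut (FP X H)) where
  carrier := {α | ∃ Z, α ∈ Aut w K Z}
  one_mem' := ⟨∅, one_mem _⟩
  mul_mem' := by
    rintro α β ⟨Z, hZ⟩ ⟨W, hW⟩
    exact ⟨Z ∪ W, mul_mem (Aut.mono Finset.subset_union_left hZ)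
      (Aut.mono Finset.subset_union_right hW)⟩
  inv_mem' := by
    rintro α ⟨Z, hZ⟩
    exact ⟨Z, inv_mem hZ⟩

/-- on every finite part `γ` agrees with an element of `AX w K` -/
def Loc (w : H) (K : Set H) (γ : MulAut (FP X H)) : Prop :=
  ∀ Z : Finset X, ∃ b ∈ AX w K, Tr w Z (b⁻¹ * γ)

theorem Loc.mul {w : H} {K : Set H} {γ δ : MulAut (FP X H)} (h1 : Loc w K γ) (h2 : Loc w K δ) :
    Loc w K (γ * δ) := by
  intro Z
  obtain ⟨b₂, ⟨W₂, hb₂⟩, ht₂⟩ := h2 Z
  obtain ⟨b₁, hb₁, ht₁⟩ := h1 (Z ∪ W₂)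
  refine ⟨b₁ * b₂, mul_mem hb₁ ⟨W₂, hb₂⟩, ?_⟩
  have e : (b₁ * b₂)⁻¹ * (γ * δ) = (b₂⁻¹ * (b₁⁻¹ * γ) * b₂) * (b₂⁻¹ * δ) := by group
  rw [e]
  exact (Tr.conj Finset.subset_union_left ht₁ (Aut.mono Finset.subset_union_right hb₂)).mul ht₂

theorem Loc.of_mem {w : H} {K : Set H} {b : MulAut (FP X H)} (h : b ∈ AX w K) : Loc w K b :=
  fun Z => ⟨b, h, by rw [inv_mul_cancel]; exact Tr.one w Z⟩

/-- it suffices to consider large finite sets -/
theorem Loc.of_large {w : H} {K : Set H} {γ : MulAut (FP X H)}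
    (h : ∀ Z : Finset X, ∃ W, Z ⊆ W ∧ ∃ b ∈ AX w K, Tr w W (b⁻¹ * γ)) : Loc w K γ := by
  intro Z
  obtain ⟨W, hZW, b, hb, ht⟩ := h Z
  exact ⟨b, hb, ht.mono hZW⟩

/-- the group of the automorphisms which agree, together with their inverses, on every finite part
with an element of `AX w K` -/
def HX (w : H) (K : Set H) : Subgroup (MulAut (FP X H)) where
  carrier := {γ | Loc w K γ ∧ Loc w K γ⁻¹}
  one_mem' := ⟨Loc.of_mem (one_mem _), by rw [inv_one]; exact Loc.of_mem (one_mem _)⟩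
  mul_mem' := by
    rintro γ δ ⟨h1, h2⟩ ⟨h3, h4⟩
    exact ⟨h1.mul h3, by rw [mul_inv_rev]; exact h4.mul h2⟩
  inv_mem' := by
    rintro γ ⟨h1, h2⟩
    exact ⟨h2, by rw [inv_inv]; exact h1⟩

theorem AX_le_HX (w : H) (K : Set H) : (AX w K : Subgroup (MulAut (FP X H))) ≤ HX w K :=
  fun _ h => ⟨Loc.of_mem h, Loc.of_mem (inv_mem h)⟩

theorem Loc.conj_eq {w : H} {K : Set H} {γ : MulAut (FP X H)} (h : Loc w K γ) (Z : Finset X) :
    ∃ b ∈ AX w K, ∀ α ∈ Aut w K Z, γ * α * γ⁻¹ = b * α * b⁻¹ := by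
  obtain ⟨b, hb, ht⟩ := h Z
  refine ⟨b, hb, fun α hα => ?_⟩
  have h1 := ht.commute hα.1
  have e : γ * α * γ⁻¹ = b * ((b⁻¹ * γ) * α * (b⁻¹ * γ)⁻¹) * b⁻¹ := by group
  rw [e, h1]

theorem conj_mem_AX {w : H} {K : Set H} {γ α : MulAut (FP X H)} (h : γ ∈ HX w K)
    (ha : α ∈ AX w K) : γ * α * γ⁻¹ ∈ AX w K := by
  obtain ⟨Z, hZ⟩ := ha
  obtain ⟨b, hb, he⟩ := Loc.conj_eq h.1 Z
  rw [he α hZ]
  exact mul_mem (mul_mem hb ⟨Z, hZ⟩) (inv_mem hb)

/-- finitely many elements of `AX w K` lie in one of the groups -/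
theorem AX_finite {w : H} {K : Set H} {G : Type} (j : G → MulAut (FP X H)) (E : Set G)
    (hE : E.Finite) (hB : ∀ x ∈ E, j x ∈ AX w K) : ∃ Z, ∀ x ∈ E, j x ∈ Aut w K Z :=
  (system_Aut (X := X) w K).exists_of_finite j E hE hB

/-- **the main theorem** -/
theorem main' {C : ∀ (G : Type) [Group G], Prop} (hC : ClosedE C) (w : H) (K : Set H)
    (hB : ∀ n, C (AutN w K n)) (G : Type) [Group G] (N : Subgroup G) [N.Normal] (hQ : C (G ⧸ N))
    (j : G →* MulAut (FP X H)) (hj : ∀ n ∈ N, j n = 1 → n = 1) (hN : ∀ n ∈ N, j n ∈ AX w K)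
    (hG : ∀ g : G, j g ∈ HX w K) : C G := by
  have hCB : ∀ Z : Finset X, C (Aut w K Z) := fun Z =>
    hC.base.of_injective _ _ (resN w K Z) (resN_injective w K Z) (hB _)
  refine Pool.Agent.Results.MP_490288_al.RealizationCriterion.result C hC G N hQ ?_
  intro g E hE hEN
  obtain ⟨Z₂, hZ₂⟩ := AX_finite j E hE (fun x hx => hN x (hEN hx))
  obtain ⟨b, ⟨Z₁, hb⟩, hreal⟩ := (hG g).1.conj_eq Z₂
  obtain ⟨Z₄, hZ₄⟩ := AX_finite j ((fun x => g * x * g⁻¹) '' E) (hE.image _) (by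
    rintro _ ⟨x, hx, rfl⟩
    exact hN _ (Subgroup.Normal.conj_mem inferInstance _ (hEN hx) g))
  set W := Z₁ ∪ Z₂ ∪ Z₄ with hW
  have s1 : Z₁ ⊆ W := Finset.subset_union_left.trans Finset.subset_union_left
  have s2 : Z₂ ⊆ W := Finset.subset_union_right.trans Finset.subset_union_left
  have s4 : Z₄ ⊆ W := Finset.subset_union_right
  have hcl : ∀ x ∈ Subgroup.closure (E ∪ (fun x => g * x * g⁻¹) '' E), j x ∈ Aut w K W := by
    have : Subgroup.closure (E ∪ (fun x => g * x * g⁻¹) '' E) ≤ (Aut w K W).comap j := by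
      rw [Subgroup.closure_le]
      rintro x (hx | hx)
      · exact Aut.mono s2 (hZ₂ x hx)
      · exact Aut.mono s4 (hZ₄ x hx)
    exact fun x hx => this hx
  have hclN : Subgroup.closure (E ∪ (fun x => g * x * g⁻¹) '' E) ≤ N := by
    rw [Subgroup.closure_le]
    rintro x (hx | ⟨y, hy, rfl⟩)
    · exact hEN hx
    · exact Subgroup.Normal.conj_mem inferInstance _ (hEN hy) g
  refine ⟨↥(Aut w K W), inferInstance,
    ((j.comp (Subgroup.subtype _)).codRestrict (Aut w K W) (fun x => hcl _ x.2)),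
    ⟨b, Aut.mono s1 hb⟩, hCB W, ?_, ?_⟩
  · rw [injective_iff_map_eq_one]
    intro x hx
    apply Subtype.ext
    apply hj _ (hclN x.2)
    exact congrArg Subtype.val hx
  · intro x y hx hy
    apply Subtype.ext
    show j (y : G) = b * j (x : G) * b⁻¹
    rw [hy, map_mul, map_mul, map_inv]
    exact hreal _ (hZ₂ _ hx)

/-! ### block automorphisms -/

theorem Loc.blk (w : H) (K : Set H) (θ : X ≃o X) (τ : X → MulAut H) (hτ : ∀ x, τ x ∈ Dia w K) :
    Loc w K (BK.blk θ τ) := by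
  classical
  intro Z
  obtain ⟨c, hc, hR⟩ := conn w Z id θ (StrictMonoOn_id Z) (θ.strictMono.strictMonoOn _)
  obtain ⟨W, hW⟩ := (system_Aut (X := X) w K).exists_mem_BX c hc
  set τi : X → MulAut H := fun x => if x ∈ Z then τ x else 1 with hτi
  set τo : X → MulAut H := fun x => if x ∈ Z then 1 else τ x with hτo
  have e : τ = τi * τo := by
    funext x
    rw [Pi.mul_apply, hτi, hτo]
    by_cases hx : x ∈ Z
    · simp [hx]
    · simp [hx]
  have hi : BK.blk (OrderIso.refl X) τi ∈ Aut w K Z := by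
    refine blk_mem_Aut w K Z τi (fun x => ?_) (fun x hx => ?_)
    · rw [hτi]
      by_cases hx : x ∈ Z
      · simp only [hx, if_true]
        exact hτ x
      · simp only [hx, if_false]
        exact one_mem _
    · rw [hτi]
      simp only [hx, if_false]
  have h1 : Tr w Z (BK.blk (OrderIso.refl X) τo) := RR.tr (RR_out w Z τo fun z hz => by
    rw [hτo]
    simp only [hz, if_true])
  have h2 : Tr w Z (c⁻¹ * BK.blk θ (1 : X → MulAut H)) := ((RR_blk w Z θ).trans hR.symm).tr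
  refine ⟨c * BK.blk (OrderIso.refl X) τi, mul_mem ⟨W, hW⟩ ⟨Z, hi⟩, ?_⟩
  have e1 : (c * BK.blk (OrderIso.refl X) τi)⁻¹ * BK.blk θ τ =
      ((BK.blk (OrderIso.refl X) τi)⁻¹ * (c⁻¹ * BK.blk θ (1 : X → MulAut H)) *
        BK.blk (OrderIso.refl X) τi) * BK.blk (OrderIso.refl X) τo := by
    rw [blk_mul θ τ]
    conv_lhs => rw [e, blk_mul']
    group
  rw [e1]
  exact (Tr.conj (Finset.Subset.refl Z) h2 hi).mul h1

theorem blk_inv' (θ : X ≃o X) (τ : X → MulAut H) :
    (blk θ τ)⁻¹ = blk θ.symm (fun x => (τ (θ.symm x))⁻¹) := by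
  apply MulAut.ext_el
  intro x k
  rw [blk_inv_el, blk_el]

theorem blk_mem_HX (w : H) (K : Set H) (θ : X ≃o X) (τ : X → MulAut H)
    (hτ : ∀ x, τ x ∈ Dia w K) : blk θ τ ∈ HX w K := by
  refine ⟨Loc.blk w K θ τ hτ, ?_⟩
  rw [blk_inv']
  exact Loc.blk w K θ.symm _ (fun x => inv_mem (hτ _))

end Pool.Agent.U181.BK
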