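import Pool.Agent.U181.BK.Blk
import Pool.Agent.Results.MP_490288_al.RealizationCriterion

/-!
# Extensions of braided systems
-/

set_option autoImplicit false
set_option linter.unusedSectionVars false

namespace Pool.Agent.U181.BK

open Monoid Pool.Agent.Y110.FJ

variable {X H : Type} [LinearOrder X] [Group H]

/-- a monotone family of subgroups of the groups `Aut w K Z` which contains the braidings and the
automorphisms acting on the factors `H_z`, `z ∈ Z`, by elements of `D` -/
structure System (w : H) (K : Set H) (D : Subgroup (MulAut H))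
    (B : Finset X → Subgroup (MulAut (FP X H))) : Prop where
  mono : ∀ {Z W : Finset X}, Z ⊆ W → B Z ≤ B W
  le : ∀ Z, B Z ≤ Aut w K Z
  brd : ∀ (Z : Finset X) (s t : X), s ∈ Z → t ∈ Z → ∀ hst : s < t, BK.brd w hst ∈ B Z
  dia : ∀ (Z : Finset X) (τ : X → MulAut H), (∀ x, τ x ∈ D) → (∀ x, x ∉ Z → τ x = 1) →
    blk (OrderIso.refl X) τ ∈ B Z

theorem System.exists_mem_BX {w : H} {K : Set H} {D : Subgroup (MulAut H)}
    {B : Finset X → Subgroup (MulAut (FP X H))} (h : System w K D B) (b : MulAut (FP X H))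
    (hb : b ∈ (BX w : Subgroup (MulAut (FP X H)))) : ∃ Z, b ∈ B Z := by
  unfold BX at hb
  induction hb using Subgroup.closure_induction with
  | mem x hx =>
    obtain ⟨s, t, hst, rfl⟩ := hx
    exact ⟨{s, t}, h.brd _ s t (Finset.mem_insert_self _ _)
      (Finset.mem_insert_of_mem (Finset.mem_singleton_self _)) hst⟩
  | one => exact ⟨∅, one_mem _⟩
  | mul x y _ _ hx hy =>
    obtain ⟨Z, hZ⟩ := hx
    obtain ⟨W, hW⟩ := hy
    exact ⟨Z ∪ W, mul_mem (h.mono Finset.subset_union_left hZ)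
      (h.mono Finset.subset_union_right hW)⟩
  | inv x _ hx =>
    obtain ⟨Z, hZ⟩ := hx
    exact ⟨Z, inv_mem hZ⟩

/-- conjugation by a block automorphism is realized by an element of the system -/
theorem System.realize {w : H} {K : Set H} {D : Subgroup (MulAut H)}
    {B : Finset X → Subgroup (MulAut (FP X H))} (h : System w K D B) (θ : X ≃o X)
    (τ : X → MulAut H) (hτ : ∀ x, τ x ∈ D) (Z : Finset X) :
    ∃ (W : Finset X) (b : MulAut (FP X H)), b ∈ B W ∧ ∀ α ∈ Aut w K Z,
      blk θ τ * α * (blk θ τ)⁻¹ = b * α * b⁻¹ := by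
  classical
  obtain ⟨c, hc, hR⟩ := conn w Z id θ (StrictMonoOn_id Z) (θ.strictMono.strictMonoOn _)
  obtain ⟨W, hW⟩ := h.exists_mem_BX c hc
  set τi : X → MulAut H := fun x => if x ∈ Z then τ x else 1 with hτi
  set τo : X → MulAut H := fun x => if x ∈ Z then 1 else τ x with hτo
  have e : τ = τi * τo := by
    funext x
    rw [Pi.mul_apply, hτi, hτo]
    by_cases hx : x ∈ Z
    · simp [hx]
    · simp [hx]
  have hi : blk (OrderIso.refl X) τi ∈ B Z := by
    refine h.dia Z τi (fun x => ?_) (fun x hx => ?_)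
    · rw [hτi]
      by_cases hx : x ∈ Z
      · simp only [hx, if_true]
        exact hτ x
      · simp only [hx, if_false]
        exact one_mem _
    · rw [hτi]
      simp only [hx, if_false]
  have ho : ∀ α ∈ Aut w K Z, blk (OrderIso.refl X) τo * α * (blk (OrderIso.refl X) τo)⁻¹ = α := by
    intro α hα
    have h1 : RR w Z id id (blk (OrderIso.refl X) τo) := RR_out w Z τo fun z hz => by
      rw [hτo]
      simp only [hz, if_true]
    have h2 : RR w Z id id (1 : MulAut (FP X H)) := RR.of_eq w Z fun _ _ => rfl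
    have := conj_eq h1 h2 (StrictMonoOn_id Z) hα.1
    rw [this]
    group
  refine ⟨W ∪ Z, c * blk (OrderIso.refl X) τi, mul_mem (h.mono Finset.subset_union_left hW)
    (h.mono Finset.subset_union_right hi), fun α hα => ?_⟩
  have hα1 : blk (OrderIso.refl X) τi * α * (blk (OrderIso.refl X) τi)⁻¹ ∈ Aut w K Z :=
    mul_mem (mul_mem (h.le Z hi) hα) (inv_mem (h.le Z hi))
  have e1 : blk θ τ = blk θ (1 : X → MulAut H) * (blk (OrderIso.refl X) τi *
      blk (OrderIso.refl X) τo) := by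
    rw [blk_mul θ τ, e, blk_mul']
  have e2 : blk θ τ * α * (blk θ τ)⁻¹ = blk θ (1 : X → MulAut H) * (blk (OrderIso.refl X) τi *
      (blk (OrderIso.refl X) τo * α * (blk (OrderIso.refl X) τo)⁻¹) *
        (blk (OrderIso.refl X) τi)⁻¹) * (blk θ (1 : X → MulAut H))⁻¹ := by
    rw [e1]
    group
  rw [e2, ho α hα, conj_eq (RR_blk w Z θ) hR (θ.strictMono.strictMonoOn _) hα1.1]
  group

/-- the union of a system -/
def System.union {w : H} {K : Set H} {D : Subgroup (MulAut H)}
    {B : Finset X → Subgroup (MulAut (FP X H))} (h : System w K D B) :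
    Subgroup (MulAut (FP X H)) where
  carrier := {α | ∃ Z, α ∈ B Z}
  one_mem' := ⟨∅, one_mem _⟩
  mul_mem' := by
    rintro α β ⟨Z, hZ⟩ ⟨W, hW⟩
    exact ⟨Z ∪ W, mul_mem (h.mono Finset.subset_union_left hZ)
      (h.mono Finset.subset_union_right hW)⟩
  inv_mem' := by
    rintro α ⟨Z, hZ⟩
    exact ⟨Z, inv_mem hZ⟩

theorem System.exists_of_finite {w : H} {K : Set H} {D : Subgroup (MulAut H)}
    {B : Finset X → Subgroup (MulAut (FP X H))} (h : System w K D B) {G : Type} (j : G → MulAut (FP X H))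
    (E : Set G) (hE : E.Finite) (hB : ∀ x ∈ E, ∃ Z, j x ∈ B Z) : ∃ Z, ∀ x ∈ E, j x ∈ B Z := by
  induction E, hE using Set.Finite.induction_on with
  | empty => exact ⟨∅, fun x hx => absurd hx (Set.notMem_empty x)⟩
  | @insert a S _ _ ih =>
    obtain ⟨Z, hZ⟩ := ih fun x hx => hB x (Set.mem_insert_of_mem a hx)
    obtain ⟨W, hW⟩ := hB a (Set.mem_insert a S)
    refine ⟨Z ∪ W, fun x hx => ?_⟩
    rcases hx with rfl | hx
    · exact h.mono Finset.subset_union_right hW
    · exact h.mono Finset.subset_union_left (hZ x hx)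

theorem main {C : ∀ (G : Type) [Group G], Prop} (hC : ClosedE C) {w : H} {K : Set H}
    {D : Subgroup (MulAut H)} {B : Finset X → Subgroup (MulAut (FP X H))} (h : System w K D B)
    (hCB : ∀ Z, C (B Z)) (G : Type) [Group G] (N : Subgroup G) [N.Normal] (hQ : C (G ⧸ N))
    (j : G →* MulAut (FP X H)) (hj : ∀ n ∈ N, j n = 1 → n = 1) (hN : ∀ n ∈ N, ∃ Z, j n ∈ B Z)
    (hG : ∀ g : G, ∃ (Z : Finset X) (b : MulAut (FP X H)) (θ : X ≃o X) (τ : X → MulAut H),
      b ∈ B Z ∧ (∀ x, τ x ∈ D) ∧ j g = b * blk θ τ) : C G := by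
  refine Pool.Agent.Results.MP_490288_al.RealizationCriterion.result C hC G N hQ ?_
  intro g E hE hEN
  obtain ⟨Z₁, b, θ, τ, hb, hτ, hg⟩ := hG g
  obtain ⟨Z₂, hZ₂⟩ := h.exists_of_finite j E hE (fun x hx => hN x (hEN hx))
  obtain ⟨Z₃, c, hc, hreal⟩ := h.realize θ τ hτ Z₂
  obtain ⟨Z₄, hZ₄⟩ := h.exists_of_finite j ((fun x => g * x * g⁻¹) '' E) (hE.image _) (by
    rintro _ ⟨x, hx, rfl⟩
    exact hN _ (Subgroup.Normal.conj_mem inferInstance _ (hEN hx) g))
  set W := Z₁ ∪ Z₂ ∪ (Z₃ ∪ Z₄) with hW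
  have s1 : Z₁ ⊆ W := Finset.subset_union_left.trans Finset.subset_union_left
  have s2 : Z₂ ⊆ W := Finset.subset_union_right.trans Finset.subset_union_left
  have s3 : Z₃ ⊆ W := Finset.subset_union_left.trans Finset.subset_union_right
  have s4 : Z₄ ⊆ W := Finset.subset_union_right.trans Finset.subset_union_right
  have hcl : ∀ x ∈ Subgroup.closure (E ∪ (fun x => g * x * g⁻¹) '' E), j x ∈ B W := by
    have : Subgroup.closure (E ∪ (fun x => g * x * g⁻¹) '' E) ≤ (B W).comap j := by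
      rw [Subgroup.closure_le]
      rintro x (hx | hx)
      · exact h.mono s2 (hZ₂ x hx)
      · exact h.mono s4 (hZ₄ x hx)
    exact fun x hx => this hx
  have hclN : Subgroup.closure (E ∪ (fun x => g * x * g⁻¹) '' E) ≤ N := by
    rw [Subgroup.closure_le]
    rintro x (hx | ⟨y, hy, rfl⟩)
    · exact hEN hx
    · exact Subgroup.Normal.conj_mem inferInstance _ (hEN hy) g
  refine ⟨↥(B W), inferInstance,
    ((j.comp (Subgroup.subtype _)).codRestrict (B W) (fun x => hcl _ x.2)),
    ⟨b * c, mul_mem (h.mono s1 hb) (h.mono s3 hc)⟩, hCB W, ?_, ?_⟩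
  · rw [injective_iff_map_eq_one]
    intro x hx
    apply Subtype.ext
    apply hj _ (hclN x.2)
    exact congrArg Subtype.val hx
  · intro x y hx hy
    apply Subtype.ext
    show j (y : G) = b * c * j (x : G) * (b * c)⁻¹
    have e1 : j (x : G) ∈ Aut w K Z₂ := h.le _ (hZ₂ _ hx)
    have e2 := hreal _ e1
    rw [hy, map_mul, map_mul, map_inv, hg]
    calc b * blk θ τ * j (x : G) * (b * blk θ τ)⁻¹
        = b * (blk θ τ * j (x : G) * (blk θ τ)⁻¹) * b⁻¹ := by group
      _ = b * (c * j (x : G) * c⁻¹) * b⁻¹ := by rw [e2]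
      _ = b * c * j (x : G) * (b * c)⁻¹ := by group

/-! ### the full system -/

theorem system_Aut (w : H) (K : Set H) : System w K (Dia w K) (fun Z : Finset X => Aut w K Z) where
  mono := Aut.mono
  le := fun _ => le_rfl
  brd := fun Z _ _ hs ht hst => brd_mem_Aut w K Z hs ht hst
  dia := fun Z τ h1 h2 => blk_mem_Aut w K Z τ h1 h2

end Pool.Agent.U181.BK
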