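import Pool.Agent.U181.BK.Prod

/-!
# Moving finite subsets by braidings
-/

set_option autoImplicit false
set_option linter.unusedSectionVars false

namespace Pool.Agent.U181.BK

open Monoid

variable {X H : Type} [LinearOrder X] [Group H]

/-- `b` carries `h_(f z)` to `h_(f' z)` for `z ∈ Z`, and the elements outside `f(Z)` to those outside
`f'(Z)` -/
structure RR (w : H) (Z : Finset X) (f f' : X → X) (b : MulAut (FP X H)) : Prop where
  val : ∀ z ∈ Z, ∀ k : H, b (el (f z) k) = el (f' z) k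
  fwd : ∀ y ∈ YS w (Z.image f), b y ∈ YS w (Z.image f')
  bwd : ∀ y ∈ YS w (Z.image f'), b⁻¹ y ∈ YS w (Z.image f)

theorem RR.of_eq (w : H) (Z : Finset X) {f f' : X → X} (h : ∀ z ∈ Z, f z = f' z) :
    RR w Z f f' 1 := by
  have e : Z.image f = Z.image f' := Finset.image_congr fun z hz => h z hz
  refine ⟨fun z hz k => ?_, fun y hy => ?_, fun y hy => ?_⟩
  · rw [h z hz]
    rfl
  · rw [← e]
    exact hy
  · rw [e]
    exact hy

theorem RR.symm {w : H} {Z : Finset X} {f f' : X → X} {b : MulAut (FP X H)} (h : RR w Z f f' b) :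
    RR w Z f' f b⁻¹ := by
  refine ⟨fun z hz k => ?_, h.bwd, fun y hy => ?_⟩
  · rw [← h.val z hz k, MulAut.inv_apply_self]
  · rw [inv_inv]
    exact h.fwd y hy

theorem RR.trans {w : H} {Z : Finset X} {f f' f'' : X → X} {b b' : MulAut (FP X H)}
    (h : RR w Z f f' b) (h' : RR w Z f' f'' b') : RR w Z f f'' (b' * b) := by
  refine ⟨fun z hz k => ?_, fun y hy => ?_, fun y hy => ?_⟩
  · rw [MulAut.mul_apply, h.val z hz k, h'.val z hz k]
  · exact h'.fwd _ (h.fwd _ hy)
  · rw [mul_inv_rev, MulAut.mul_apply]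
    exact h.bwd _ (h'.bwd _ hy)

theorem RR.step (w : H) (Z : Finset X) {f f' : X → X} (z₀ : X) (hz₀ : z₀ ∈ Z)
    (hst : f z₀ < f' z₀) (h1 : ∀ z ∈ Z, z ≠ z₀ → f z = f' z)
    (h2 : ∀ z ∈ Z, z ≠ z₀ → f z < f z₀ ∨ f' z₀ < f z) :
    RR w Z f f' (brd w hst)⁻¹ := by
  set W := (Z.erase z₀).image f with hW
  have e1 : Z.image f = insert (f z₀) W := by
    rw [hW, ← Finset.image_insert, Finset.insert_erase hz₀]
  have e2 : Z.image f' = insert (f' z₀) W := by
    have e3 : W = (Z.erase z₀).image f' := by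
      rw [hW]
      apply Finset.image_congr
      intro z hz
      have hz' := Finset.mem_erase.1 (Finset.mem_coe.1 hz)
      exact h1 z hz'.2 hz'.1
    rw [e3, ← Finset.image_insert, Finset.insert_erase hz₀]
  have hout : ∀ x ∈ W, x < f z₀ ∨ f' z₀ < x := by
    intro x hx
    rw [hW, Finset.mem_image] at hx
    obtain ⟨z, hz, rfl⟩ := hx
    rw [Finset.mem_erase] at hz
    exact h2 z hz.2 hz.1
  refine ⟨fun z hz k => ?_, fun y hy => ?_, fun y hy => ?_⟩
  · rw [brd_inv_el]
    by_cases h : z = z₀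
    · subst h
      rw [brdInvFun_s]
    · rw [brdInvFun_out w hst (h2 z hz h), h1 z hz h]
  · rw [e1] at hy
    rw [e2]
    exact map_YS ((brd w hst)⁻¹ : MulAut (FP X H)).toMonoidHom
      (fun u hu h => brd_inv_yy_mem w hst W hout u hu h) y hy
  · rw [e2] at hy
    rw [e1, inv_inv]
    exact map_YS (brd w hst).toMonoidHom (fun u hu h => brd_yy_mem w hst W hout u hu h) y hy

/-- the group generated by all braidings -/
def BX (w : H) : Subgroup (MulAut (FP X H)) :=
  Subgroup.closure {b | ∃ (s t : X) (hst : s < t), b = brd w hst}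

theorem brd_mem_BX (w : H) {s t : X} (hst : s < t) : brd w hst ∈ (BX w : Subgroup _) :=
  Subgroup.subset_closure ⟨s, t, hst, rfl⟩

theorem conn_le (w : H) (Z : Finset X) : ∀ (n : ℕ) (f f' : X → X),
    StrictMonoOn f (Z : Set X) → StrictMonoOn f' (Z : Set X) → (∀ z ∈ Z, f z ≤ f' z) →
    (Z.filter (fun z => f z ≠ f' z)).card = n → ∃ b ∈ (BX w : Subgroup (MulAut (FP X H))),
      RR w Z f f' b := by
  intro n
  induction n with
  | zero =>
    intro f f' _ _ _ hc
    refine ⟨1, one_mem _, RR.of_eq w Z fun z hz => ?_⟩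
    by_contra hne
    rw [Finset.card_eq_zero, Finset.filter_eq_empty_iff] at hc
    exact hc hz hne
  | succ n ih =>
    intro f f' hf hf' hle hc
    set D := Z.filter (fun z => f z ≠ f' z) with hD
    have hne : D.Nonempty := by
      rw [← Finset.card_pos, hc]
      exact Nat.succ_pos n
    obtain ⟨z₀, hz₀, hmax⟩ := Finset.exists_max_image D id hne
    have hz₀' := hz₀
    rw [hD, Finset.mem_filter] at hz₀'
    obtain ⟨hz, hne₀⟩ := hz₀'
    have hst : f z₀ < f' z₀ := lt_of_le_of_ne (hle z₀ hz) hne₀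
    have hgt : ∀ z ∈ Z, z₀ < z → f z = f' z := by
      intro z hzZ hlt
      by_contra hne
      have : z ∈ D := by
        rw [hD, Finset.mem_filter]
        exact ⟨hzZ, hne⟩
      exact absurd (hmax z this) (not_le.2 hlt)
    set f₁ := Function.update f z₀ (f' z₀) with hf₁
    have e0 : f₁ z₀ = f' z₀ := by rw [hf₁, Function.update_self]
    have e1 : ∀ z, z ≠ z₀ → f₁ z = f z := fun z hz => by rw [hf₁, Function.update_of_ne hz]
    have hm : StrictMonoOn f₁ (Z : Set X) := by
      intro a ha b hb hab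
      by_cases h1 : a = z₀
      · subst h1
        rw [e0, e1 b hab.ne', hgt b hb hab]
        exact hf' ha hb hab
      · by_cases h2 : b = z₀
        · subst h2
          rw [e0, e1 a h1]
          exact (hf ha hb hab).trans_le (hle _ hb)
        · rw [e1 a h1, e1 b h2]
          exact hf ha hb hab
    have hst₁ : f z₀ < f₁ z₀ := by rw [e0]; exact hst
    have hstep : RR w Z f f₁ (brd w hst₁)⁻¹ := by
      apply RR.step w Z z₀ hz hst₁
      · intro z _ hne
        rw [e1 z hne]
      · intro z hzZ hne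
        rw [e0]
        rcases lt_or_gt_of_ne hne with h | h
        · exact Or.inl (hf hzZ hz h)
        · refine Or.inr ?_
          rw [hgt z hzZ h]
          exact hf' hz hzZ h
    have hle₁ : ∀ z ∈ Z, f₁ z ≤ f' z := by
      intro z hzZ
      by_cases h : z = z₀
      · rw [h, e0]
      · rw [e1 z h]
        exact hle z hzZ
    have hc₁ : (Z.filter (fun z => f₁ z ≠ f' z)).card = n := by
      have e : Z.filter (fun z => f₁ z ≠ f' z) = D.erase z₀ := by
        ext z
        rw [Finset.mem_filter, Finset.mem_erase, hD, Finset.mem_filter]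
        constructor
        · rintro ⟨h1, h2⟩
          have hne : z ≠ z₀ := by
            rintro rfl
            exact h2 e0
          rw [e1 z hne] at h2
          exact ⟨hne, h1, h2⟩
        · rintro ⟨hne, h1, h2⟩
          refine ⟨h1, ?_⟩
          rw [e1 z hne]
          exact h2
      rw [e, Finset.card_erase_of_mem hz₀, hc]
      rfl
    obtain ⟨b, hb, hR⟩ := ih f₁ f' hm hf' hle₁ hc₁
    exact ⟨b * (brd w hst₁)⁻¹, mul_mem hb (inv_mem (brd_mem_BX w hst₁)), hstep.trans hR⟩

theorem conn (w : H) (Z : Finset X) (f f' : X → X) (hf : StrictMonoOn f (Z : Set X))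
    (hf' : StrictMonoOn f' (Z : Set X)) :
    ∃ b ∈ (BX w : Subgroup (MulAut (FP X H))), RR w Z f f' b := by
  have hg : StrictMonoOn (fun z => max (f z) (f' z)) (Z : Set X) := by
    intro a ha b hb hab
    exact max_lt_max (hf ha hb hab) (hf' ha hb hab)
  obtain ⟨b, hb, h1⟩ := conn_le w Z _ f _ hf hg (fun z _ => le_max_left _ _) rfl
  obtain ⟨b', hb', h2⟩ := conn_le w Z _ f' _ hf' hg (fun z _ => le_max_right _ _) rfl
  exact ⟨b'⁻¹ * b, mul_mem (inv_mem hb') hb, h1.trans h2.symm⟩

theorem RR.FZ {w : H} {Z : Finset X} {f f' : X → X} {b : MulAut (FP X H)} (h : RR w Z f f' b)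
    (x : FP X H) (hx : x ∈ (FZ (Z.image f) : Subgroup (FP X H))) :
    b x ∈ (BK.FZ (Z.image f') : Subgroup (FP X H)) := by
  have h2 : (BK.FZ (Z.image f) : Subgroup (FP X H)) ≤
      (BK.FZ (Z.image f') : Subgroup (FP X H)).comap b.toMonoidHom := by
    rw [BK.FZ, Subgroup.closure_le]
    rintro y ⟨u, hu, k, rfl⟩
    rw [Finset.mem_image] at hu
    obtain ⟨z, hz, rfl⟩ := hu
    show b (el (f z) k) ∈ (BK.FZ (Z.image f') : Subgroup (FP X H))
    rw [h.val z hz k]
    exact el_mem_FZ (Finset.mem_image_of_mem f' hz) k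
  exact h2 hx

theorem RR.pr {w : H} {Z : Finset X} {f f' : X → X} {b : MulAut (FP X H)} (h : RR w Z f f' b)
    (hf : StrictMonoOn f (Z : Set X)) (hf' : StrictMonoOn f' (Z : Set X)) :
    b (pr w (Z.image f)) = BK.pr w (Z.image f') := by
  rw [pr_image w f Z hf, pr_image w f' Z hf', map_list_prod, List.map_map]
  congr 1
  apply List.map_congr_left
  intro z hz
  rw [Finset.mem_sort] at hz
  exact h.val z hz w

theorem Good.conj {w : H} {K : Set H} {Z : Finset X} {f f' : X → X} {b α : MulAut (FP X H)}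
    (h : RR w Z f f' b) (hf : StrictMonoOn f (Z : Set X)) (hf' : StrictMonoOn f' (Z : Set X))
    (ha : Good w K (Z.image f) α) : Good w K (Z.image f') (b * α * b⁻¹) := by
  refine ⟨fun x hx => ?_, ?_, fun u hu k => ?_, fun z hz k hk => ?_⟩
  · exact h.FZ _ (ha.maps _ (h.symm.FZ x hx))
  · rw [MulAut.mul_apply, MulAut.mul_apply, h.symm.pr hf' hf, ha.prd, h.pr hf hf']
  · rw [MulAut.mul_apply, MulAut.mul_apply, ha.fixY _ (h.bwd _ (yy_mem_YS w _ u hu k)),
      MulAut.apply_inv_self]
  · rw [Finset.mem_image] at hz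
    obtain ⟨z₁, hz₁, rfl⟩ := hz
    obtain ⟨z₂, hz₂, k', hk', hc⟩ := ha.per (f z₁) (Finset.mem_image_of_mem f hz₁) k hk
    rw [Finset.mem_image] at hz₂
    obtain ⟨z₃, hz₃, rfl⟩ := hz₂
    refine ⟨f' z₃, Finset.mem_image_of_mem f' hz₃, k', hk', ?_⟩
    rw [MulAut.mul_apply, MulAut.mul_apply, h.symm.val z₁ hz₁ k, ← h.val z₃ hz₃ k']
    exact b.toMonoidHom.map_isConj hc

theorem Aut.conj {w : H} {K : Set H} {Z : Finset X} {f f' : X → X} {b α : MulAut (FP X H)}
    (h : RR w Z f f' b) (hf : StrictMonoOn f (Z : Set X)) (hf' : StrictMonoOn f' (Z : Set X))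
    (ha : α ∈ Aut w K (Z.image f)) : b * α * b⁻¹ ∈ Aut w K (Z.image f') := by
  refine ⟨Good.conj h hf hf' ha.1, ?_⟩
  have e : (b * α * b⁻¹)⁻¹ = b * α⁻¹ * b⁻¹ := by group
  rw [e]
  exact Good.conj h hf hf' ha.2

theorem StrictMonoOn_id (Z : Finset X) : StrictMonoOn (id : X → X) (Z : Set X) :=
  fun _ _ _ _ h => h

/-- two automorphisms that move `Z` in the same way conjugate the group `Aut w K Z` in the same way -/
theorem conj_eq {w : H} {K : Set H} {Z : Finset X} {f : X → X} {b c α : MulAut (FP X H)}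
    (hb : RR w Z id f b) (hc : RR w Z id f c) (hf : StrictMonoOn f (Z : Set X))
    (ha : Good w K Z α) : b * α * b⁻¹ = c * α * c⁻¹ := by
  have ha' : Good w K (Z.image id) α := by rw [Finset.image_id]; exact ha
  refine Good.ext (Good.conj hb (StrictMonoOn_id Z) hf ha') (Good.conj hc (StrictMonoOn_id Z) hf ha')
    fun z hz k => ?_
  rw [Finset.mem_image] at hz
  obtain ⟨z₁, hz₁, rfl⟩ := hz
  rw [MulAut.mul_apply, MulAut.mul_apply, MulAut.mul_apply, MulAut.mul_apply,
    hb.symm.val z₁ hz₁ k, hc.symm.val z₁ hz₁ k]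
  have h1 : α (el z₁ k) ∈ (FZ Z : Subgroup (FP X H)) := ha.maps _ (el_mem_FZ hz₁ k)
  have h2 : ∀ x ∈ (FZ Z : Subgroup (FP X H)), b x = c x := by
    intro x hx
    unfold FZ at hx
    induction hx using Subgroup.closure_induction with
    | mem x hx =>
      obtain ⟨z, hz, k, rfl⟩ := hx
      exact (hb.val z hz k).trans (hc.val z hz k).symm
    | one => rw [map_one, map_one]
    | mul x y _ _ hx hy => rw [map_mul, map_mul, hx, hy]
    | inv x _ hx => rw [map_inv, map_inv, hx]
  exact h2 _ h1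

end Pool.Agent.U181.BK
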