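import Pool.Agent.U181.BK.Send

/-!
# The main theorem in terms of predicates
-/

set_option autoImplicit false
set_option linter.unusedSectionVars false

namespace Pool.Agent.U181.BK

open Monoid Pool.Agent.Y110.FJ

variable {X H : Type} [LinearOrder X] [Group H]

/-- `α` is braided: for some finite `Z`, `α` and its inverse preserve the part of `Z` and fix the rest -/
def Braid (w : H) (K : Set H) (α : MulAut (FP X H)) : Prop :=
  ∃ Z : Finset X, Good w K Z α ∧ Good w K Z α⁻¹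

/-- on every finite part `γ` agrees with a braided automorphism: `b⁻¹ γ` is the identity on the `H_z`,
`z ∈ Z`, and maps the subgroup `YS w Z` onto itself -/
def LocBraid (w : H) (K : Set H) (γ : MulAut (FP X H)) : Prop :=
  ∀ Z : Finset X, ∃ b : MulAut (FP X H), Braid w K b ∧ Tr w Z (b⁻¹ * γ)

/-- every extension of a group in `C` by a group of braided automorphisms, acting by locally braided
automorphisms, is in `C` -/
def ExtIn (C : ∀ (G : Type) [Group G], Prop) (X : Type) {H : Type} [LinearOrder X] [Group H] (w : H)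
    (K : Set H) : Prop :=
  ∀ (G : Type) [Group G] (N : Subgroup G) [N.Normal] (j : G →* MulAut (FP X H)), C (G ⧸ N) →
    (∀ g : G, LocBraid w K (j g)) → (∀ n ∈ N, Braid w K (j n)) → (∀ n ∈ N, j n = 1 → n = 1) → C G

/-- an automorphism is locally braided if it sends the data of arbitrarily large finite sets to the
data of finite sets -/
def SendsLoc (X : Type) {H : Type} [LinearOrder X] [Group H] (w : H) (K : Set H) : Prop :=
  ∀ γ : MulAut (FP X H), (∀ Z : Finset X, ∃ W W', Z ⊆ W ∧ Sends w K γ W W') → LocBraid w K γ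

/-- the maps `h_x ↦ (τ_x h)_(θ x)` are locally braided automorphisms -/
def OrderLoc (X : Type) {H : Type} [LinearOrder X] [Group H] (w : H) (K : Set H) : Prop :=
  ∀ (θ : X ≃o X) (τ : X → MulAut H), (∀ x, τ x w = w ∧ ∀ k, k ∈ K ↔ τ x k ∈ K) →
    ∃ γ : MulAut (FP X H), (∀ x h, γ (el x h) = el (θ x) (τ x h)) ∧ LocBraid w K γ ∧
      LocBraid w K γ⁻¹

/-- jumps are locally braided automorphisms -/
def JumpLoc (X : Type) {H : Type} [LinearOrder X] [Group H] (w : H) (K : Set H) : Prop :=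
  ∀ (η : Equiv.Perm X) (s : X), (∀ x y, x ≠ s → y ≠ s → x < y → η x < η y) →
    (∀ x, x < s → η x < η s) →
    ∃ γ : MulAut (FP X H), (∀ x h, (s < x → η x < η s →
        γ (el x h) = (el (η s) w)⁻¹ * el (η x) h * el (η s) w) ∧
      ((x ≤ s ∨ η s ≤ η x) → γ (el x h) = el (η x) h)) ∧ LocBraid w K γ ∧ LocBraid w K γ⁻¹

theorem braid_iff {w : H} {K : Set H} {α : MulAut (FP X H)} : Braid w K α ↔ α ∈ AX w K := Iff.rfl

theorem locBraid_iff {w : H} {K : Set H} {γ : MulAut (FP X H)} :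
    LocBraid w K γ ↔ Loc w K γ := Iff.rfl

theorem main_pred {C : ∀ (G : Type) [Group G], Prop} (hC : ClosedE C) (w : H) (K : Set H)
    (hB : ∀ n, C (AutN w K n)) (G : Type) [Group G] (N : Subgroup G) [N.Normal] (hQ : C (G ⧸ N))
    (j : G →* MulAut (FP X H)) (hj : ∀ n ∈ N, j n = 1 → n = 1) (hN : ∀ n ∈ N, Braid w K (j n))
    (hG : ∀ g : G, LocBraid w K (j g)) : C G :=
  main' hC w K hB G N hQ j hj hN fun g => ⟨hG g, by rw [← map_inv]; exact hG g⁻¹⟩

theorem sends_pred {w : H} {K : Set H} {γ : MulAut (FP X H)}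
    (h1 : ∀ Z : Finset X, ∃ W W', Z ⊆ W ∧ Sends w K γ W W') : LocBraid w K γ := by
  apply Loc.of_large
  intro Z
  obtain ⟨W, W', hZ, h⟩ := h1 Z
  exact ⟨W, hZ, h.tr⟩

theorem blk_pred (w : H) (K : Set H) (θ : X ≃o X) (τ : X → MulAut H)
    (hτ : ∀ x, τ x w = w ∧ ∀ k, k ∈ K ↔ τ x k ∈ K) :
    ∃ γ : MulAut (FP X H), (∀ x h, γ (el x h) = el (θ x) (τ x h)) ∧ LocBraid w K γ ∧
      LocBraid w K γ⁻¹ := by
  have hD : ∀ x, τ x ∈ Dia w K := by
    intro x
    refine ⟨(hτ x).1, fun k hk => ((hτ x).2 k).1 hk, fun k hk => ?_⟩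
    rw [(hτ x).2, MulAut.apply_inv_self]
    exact hk
  have := blk_mem_HX w K θ τ hD
  exact ⟨blk θ τ, fun x h => blk_el θ τ x h, this.1, this.2⟩

theorem jmp_pred (w : H) (K : Set H) (η : Equiv.Perm X) (s : X)
    (h1 : ∀ x y, x ≠ s → y ≠ s → x < y → η x < η y) (h2 : ∀ x, x < s → η x < η s) :
    ∃ γ : MulAut (FP X H), (∀ x h, (s < x → η x < η s →
      γ (el x h) = (el (η s) w)⁻¹ * el (η x) h * el (η s) w) ∧
      ((x ≤ s ∨ η s ≤ η x) → γ (el x h) = el (η x) h)) ∧ LocBraid w K γ ∧ LocBraid w K γ⁻¹ := by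
  have := jmp_mem_HX w K (η := η) (s := s) ⟨h1, h2⟩
  refine ⟨jmp w η s, fun x h => ⟨fun h3 h4 => ?_, fun h3 => ?_⟩, this.1, this.2⟩
  · rw [jmp_el, jmpFun_in w η ⟨h3, h4⟩]
  · rw [jmp_el, jmpFun_out w η]
    rintro ⟨h4, h5⟩
    rcases h3 with h3 | h3
    · exact absurd h4 (not_lt.2 h3)
    · exact absurd h5 (not_lt.2 h3)

end Pool.Agent.U181.BK
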