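import Pool.Agent.U181.BK.Defs

/-!
# Ordered products and the action of the braidings
-/

set_option autoImplicit false
set_option linter.unusedSectionVars false

namespace Pool.Agent.U181.BK

open Monoid

variable {X H : Type} [LinearOrder X] [Group H]

theorem sort_union (A B : Finset X) (h : ∀ a ∈ A, ∀ b ∈ B, a < b) :
    (A ∪ B).sort (· ≤ ·) = A.sort (· ≤ ·) ++ B.sort (· ≤ ·) := by
  have hnd : (A.sort (· ≤ ·) ++ B.sort (· ≤ ·)).Nodup := by
    rw [List.nodup_append]
    refine ⟨Finset.sort_nodup _ _, Finset.sort_nodup _ _, ?_⟩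
    intro a ha b hb hab
    rw [Finset.mem_sort] at ha hb
    exact absurd hab (h a ha b hb).ne
  have e : (A.sort (· ≤ ·) ++ B.sort (· ≤ ·)).toFinset = A ∪ B := by
    ext x
    simp
  rw [← e]
  rw [List.toFinset_sort (· ≤ ·) hnd, List.pairwise_append]
  refine ⟨Finset.pairwise_sort _ _, Finset.pairwise_sort _ _, ?_⟩
  intro a ha b hb
  rw [Finset.mem_sort] at ha hb
  exact (h a ha b hb).le

theorem pr_union (w : H) (A B : Finset X) (h : ∀ a ∈ A, ∀ b ∈ B, a < b) :
    pr w (A ∪ B) = pr w A * pr w B := by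
  unfold pr
  rw [sort_union A B h, List.map_append, List.prod_append]

@[simp] theorem pr_empty (w : H) : pr w (∅ : Finset X) = 1 := by
  unfold pr
  simp

@[simp] theorem pr_singleton (w : H) (x : X) : pr w {x} = el x w := by
  unfold pr
  simp

theorem pr_insert (w : H) (v : X) (Z : Finset X) (hv : v ∉ Z) :
    pr w (insert v Z) = pr w (Z.filter (· < v)) * el v w * pr w (Z.filter (v < ·)) := by
  have e : insert v Z = (Z.filter (· < v) ∪ {v}) ∪ Z.filter (v < ·) := by
    ext x
    simp only [Finset.mem_insert, Finset.mem_union, Finset.mem_filter, Finset.mem_singleton]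
    constructor
    · rintro (rfl | hx)
      · exact Or.inl (Or.inr rfl)
      · rcases lt_trichotomy x v with h | h | h
        · exact Or.inl (Or.inl ⟨hx, h⟩)
        · exact Or.inl (Or.inr h)
        · exact Or.inr ⟨hx, h⟩
    · rintro ((⟨h, _⟩ | rfl) | ⟨h, _⟩)
      · exact Or.inr h
      · exact Or.inl rfl
      · exact Or.inr h
  rw [e, pr_union, pr_union, pr_singleton]
  · intro a ha b hb
    rw [Finset.mem_filter] at ha
    rw [Finset.mem_singleton] at hb
    rw [hb]
    exact ha.2
  · intro a ha b hb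
    simp only [Finset.mem_union, Finset.mem_filter, Finset.mem_singleton] at ha hb
    rcases ha with ⟨_, h⟩ | rfl
    · exact h.trans hb.2
    · exact hb.2

theorem el_mem_FZ {Z : Finset X} {z : X} (hz : z ∈ Z) (h : H) :
    el z h ∈ (FZ Z : Subgroup (FP X H)) := Subgroup.subset_closure ⟨z, hz, h, rfl⟩

theorem pr_mem_FZ (w : H) (Z : Finset X) : pr w Z ∈ (FZ Z : Subgroup (FP X H)) := by
  unfold pr
  apply Subgroup.list_prod_mem
  intro x hx
  rw [List.mem_map] at hx
  obtain ⟨z, hz, rfl⟩ := hx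
  rw [Finset.mem_sort] at hz
  exact el_mem_FZ hz w

theorem FZ_mono {Z W : Finset X} (h : Z ⊆ W) : (FZ Z : Subgroup (FP X H)) ≤ FZ W := by
  unfold FZ
  apply Subgroup.closure_mono
  rintro x ⟨z, hz, k, rfl⟩
  exact ⟨z, h hz, k, rfl⟩

/-- the value of a homomorphism on an ordered product -/
theorem map_pr {M : Type*} [Monoid M] (g : FP X H →* M) (w : H) (Z : Finset X) :
    g (pr w Z) = ((Z.sort (· ≤ ·)).map (fun z => g (el z w))).prod := by
  unfold pr
  rw [map_list_prod, List.map_map]
  rfl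

theorem map_pr_fix (g : FP X H →* FP X H) (w : H) (Z : Finset X)
    (h : ∀ z ∈ Z, g (el z w) = el z w) : g (pr w Z) = pr w Z := by
  rw [map_pr]
  unfold pr
  congr 1
  apply List.map_congr_left
  intro z hz
  rw [Finset.mem_sort] at hz
  exact h z hz

theorem sort_image (f : X → X) (Z : Finset X) (hf : StrictMonoOn f (Z : Set X)) :
    (Z.image f).sort (· ≤ ·) = (Z.sort (· ≤ ·)).map f := by
  have hinj : Set.InjOn f (Z : Set X) := hf.injOn
  have hnd : ((Z.sort (· ≤ ·)).map f).Nodup := by
    apply List.Nodup.map_on _ (Finset.sort_nodup _ _)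
    intro x hx y hy hxy
    rw [Finset.mem_sort] at hx hy
    exact hinj hx hy hxy
  have e : ((Z.sort (· ≤ ·)).map f).toFinset = Z.image f := by
    ext x
    simp
  rw [← e, List.toFinset_sort (· ≤ ·) hnd, List.pairwise_map]
  refine (Finset.pairwise_sort Z (· ≤ ·)).imp_of_mem ?_
  intro a b ha hb hab
  rw [Finset.mem_sort] at ha hb
  exact (hf.le_iff_le ha hb).2 hab

theorem pr_image (w : H) (f : X → X) (Z : Finset X) (hf : StrictMonoOn f (Z : Set X)) :
    pr w (Z.image f) = ((Z.sort (· ≤ ·)).map (fun z => (el (f z) w : FP X H))).prod := by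
  unfold pr
  rw [sort_image f Z hf, List.map_map]
  rfl

/-- the subgroup generated by the elements `yy w Z u h`, `u ∉ Z` -/
noncomputable def YS (w : H) (Z : Finset X) : Subgroup (FP X H) :=
  Subgroup.closure {x | ∃ u, u ∉ Z ∧ ∃ h : H, x = yy w Z u h}

theorem yy_mem_YS (w : H) (Z : Finset X) (u : X) (hu : u ∉ Z) (h : H) : yy w Z u h ∈ YS w Z :=
  Subgroup.subset_closure ⟨u, hu, h, rfl⟩

theorem map_YS {w : H} {Z Z' : Finset X} (g : FP X H →* FP X H)
    (hg : ∀ u, u ∉ Z → ∀ h : H, g (yy w Z u h) ∈ YS w Z') (x : FP X H) (hx : x ∈ YS w Z) :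
    g x ∈ YS w Z' := by
  have h : YS w Z ≤ (YS w Z').comap g := by
    unfold YS
    rw [Subgroup.closure_le]
    rintro y ⟨u, hu, k, rfl⟩
    exact hg u hu k
  exact h hx

theorem Good.fixY {w : H} {K : Set H} {Z : Finset X} {α : MulAut (FP X H)} (h : Good w K Z α)
    (x : FP X H) (hx : x ∈ YS w Z) : α x = x := by
  unfold YS at hx
  induction hx using Subgroup.closure_induction with
  | mem x hx =>
    obtain ⟨u, hu, k, rfl⟩ := hx
    exact h.fix u hu k
  | one => exact map_one α
  | mul x y _ _ hx hy => rw [map_mul, hx, hy]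
  | inv x _ hx => rw [map_inv, hx]

/-- an automorphism satisfying the conditions is determined by its values on the `H_z`, `z ∈ Z` -/
theorem Good.ext {w : H} {K : Set H} {Z : Finset X} {α β : MulAut (FP X H)} (ha : Good w K Z α)
    (hb : Good w K Z β) (h : ∀ z ∈ Z, ∀ k : H, α (el z k) = β (el z k)) : α = β := by
  have hF : ∀ x ∈ (FZ Z : Subgroup (FP X H)), α x = β x := by
    intro x hx
    unfold FZ at hx
    induction hx using Subgroup.closure_induction with
    | mem x hx =>
      obtain ⟨z, hz, k, rfl⟩ := hx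
      exact h z hz k
    | one => rw [map_one, map_one]
    | mul x y _ _ hx hy => rw [map_mul, map_mul, hx, hy]
    | inv x _ hx => rw [map_inv, map_inv, hx]
  have hall : (α : FP X H →* FP X H) = (β : FP X H →* FP X H) := by
    apply hom_ext
    intro u k
    show α (el u k) = β (el u k)
    by_cases hu : u ∈ Z
    · exact h u hu k
    · have h1 := ha.fix u hu k
      have h2 := hb.fix u hu k
      have hp := hF _ (FZ_mono (Finset.filter_subset (· < u) Z) (pr_mem_FZ w (Z.filter (· < u))))
      have e : (el u k : FP X H) = (pr w (Z.filter (· < u)))⁻¹ * yy w Z u k *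
          pr w (Z.filter (· < u)) := by
        unfold yy
        group
      rw [e, map_mul, map_mul, map_inv, map_mul, map_mul, map_inv, h1, h2, hp]
  ext x
  exact DFunLike.congr_fun hall x

/-! ### the braidings -/

section brd

variable (w : H) {s t : X} (hst : s < t)

theorem brd_pr_out (W : Finset X) (hW : ∀ z ∈ W, z < s ∨ t < z) : brd w hst (pr w W) = pr w W :=
  map_pr_fix (brd w hst : FP X H →* FP X H) w W fun z hz => by
    show brd w hst (el z w) = _
    rw [brd_el, brdFun_out w hst (hW z hz)]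

theorem filter_out (W : Finset X) (hW : ∀ z ∈ W, z < s ∨ t < z) {u : X} (h1 : s ≤ u)
    (h2 : u ≤ t) : W.filter (· < u) = W.filter (· < s) := by
  ext z
  rw [Finset.mem_filter, Finset.mem_filter]
  constructor
  · rintro ⟨hz, hzu⟩
    refine ⟨hz, ?_⟩
    rcases hW z hz with h | h
    · exact h
    · exact absurd (h.trans hzu) (not_lt.2 h2)
  · rintro ⟨hz, hzs⟩
    exact ⟨hz, hzs.trans_le h1⟩

theorem filter_out' (W : Finset X) (hW : ∀ z ∈ W, z < s ∨ t < z) (hst : s < t) :
    W.filter (s < ·) = W.filter (t < ·) := by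
  ext z
  rw [Finset.mem_filter, Finset.mem_filter]
  constructor
  · rintro ⟨hz, hzu⟩
    refine ⟨hz, ?_⟩
    rcases hW z hz with h | h
    · exact absurd (h.trans hzu) (lt_irrefl _)
    · exact h
  · rintro ⟨hz, hzs⟩
    exact ⟨hz, hst.trans hzs⟩

theorem notMem_out {W : Finset X} (hW : ∀ z ∈ W, z < s ∨ t < z) {u : X} (h1 : s ≤ u)
    (h2 : u ≤ t) : u ∉ W := by
  intro h
  rcases hW u h with h | h
  · exact absurd h (not_lt.2 h1)
  · exact absurd h (not_lt.2 h2)

theorem brd_pr_insert (W : Finset X) (hW : ∀ z ∈ W, z < s ∨ t < z) :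
    brd w hst (pr w (insert t W)) = pr w (insert s W) := by
  rw [pr_insert w t W (notMem_out hW hst.le le_rfl), pr_insert w s W (notMem_out hW le_rfl hst.le),
    map_mul, map_mul, filter_out W hW hst.le le_rfl, filter_out' W hW hst,
    brd_pr_out w hst _ (fun z hz => hW z (Finset.mem_filter.1 hz).1),
    brd_pr_out w hst _ (fun z hz => hW z (Finset.mem_filter.1 hz).1), brd_el, brdFun_t w hst]

theorem filter_insert_ge (W : Finset X) {v u : X} (h : u ≤ v) :
    (insert v W).filter (· < u) = W.filter (· < u) := by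
  rw [Finset.filter_insert, if_neg (not_lt.2 h)]

theorem filter_insert_lt (W : Finset X) {v u : X} (h : v < u) :
    (insert v W).filter (· < u) = insert v (W.filter (· < u)) := by
  rw [Finset.filter_insert, if_pos h]

theorem pr_insert_s (W : Finset X) (hW : ∀ z ∈ W, z < s ∨ t < z) (hst : s < t) {u : X}
    (h1 : s < u) (h2 : u ≤ t) :
    pr w ((insert s W).filter (· < u)) = pr w (W.filter (· < s)) * el s w := by
  rw [filter_insert_lt W h1, filter_out W hW h1.le h2]
  rw [pr_insert w s (W.filter (· < s)) (fun h => absurd (Finset.mem_filter.1 h).2 (lt_irrefl _))]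
  have e1 : (W.filter (· < s)).filter (· < s) = W.filter (· < s) := by
    rw [Finset.filter_filter]
    simp
  have e2 : (W.filter (· < s)).filter (s < ·) = ∅ := by
    rw [Finset.filter_filter, Finset.filter_eq_empty_iff]
    rintro z _ ⟨h3, h4⟩
    exact lt_irrefl _ (h3.trans h4)
  rw [e1, e2, pr_empty, mul_one]

theorem brd_yy_lt (W : Finset X) (hW : ∀ z ∈ W, z < s ∨ t < z) {u : X} (hu : u < s) (h : H) :
    brd w hst (yy w (insert t W) u h) = yy w (insert s W) u h := by
  unfold yy
  rw [filter_insert_ge W (hu.le.trans hst.le), filter_insert_ge W hu.le, map_mul, map_mul, map_inv,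
    brd_pr_out w hst _ (fun z hz => hW z (Finset.mem_filter.1 hz).1), brd_el,
    brdFun_out w hst (Or.inl hu)]

theorem brd_yy_s (W : Finset X) (hW : ∀ z ∈ W, z < s ∨ t < z) (h : H) :
    brd w hst (yy w (insert t W) s h) = yy w (insert s W) t h := by
  unfold yy
  rw [filter_insert_ge W hst.le, pr_insert_s w W hW hst hst le_rfl, map_mul, map_mul, map_inv,
    brd_pr_out w hst _ (fun z hz => hW z (Finset.mem_filter.1 hz).1), brd_el, brdFun_s]
  group

theorem brd_yy_mid (W : Finset X) (hW : ∀ z ∈ W, z < s ∨ t < z) {u : X} (h1 : s < u) (h2 : u < t)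
    (h : H) : brd w hst (yy w (insert t W) u h) =
      (yy w (insert s W) t w)⁻¹ * yy w (insert s W) u h * yy w (insert s W) t w := by
  unfold yy
  rw [filter_insert_ge W h2.le, filter_out W hW h1.le h2.le, pr_insert_s w W hW hst hst le_rfl,
    pr_insert_s w W hW hst h1 h2.le, map_mul, map_mul, map_inv,
    brd_pr_out w hst _ (fun z hz => hW z (Finset.mem_filter.1 hz).1), brd_el,
    brdFun_mid w h1 h2]
  group

theorem brd_yy_gt (W : Finset X) (hW : ∀ z ∈ W, z < s ∨ t < z) {u : X} (hu : t < u) (h : H) :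
    brd w hst (yy w (insert t W) u h) = yy w (insert s W) u h := by
  unfold yy
  rw [filter_insert_lt W hu, filter_insert_lt W (hst.trans hu), map_mul, map_mul, map_inv,
    brd_pr_insert w hst _ (fun z hz => hW z (Finset.mem_filter.1 hz).1), brd_el,
    brdFun_out w hst (Or.inr hu)]

theorem brd_yy_mem (W : Finset X) (hW : ∀ z ∈ W, z < s ∨ t < z) (u : X) (hu : u ∉ insert t W)
    (h : H) : brd w hst (yy w (insert t W) u h) ∈ YS w (insert s W) := by
  rw [Finset.mem_insert, not_or] at hu
  have ht : t ∉ insert s W := by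
    rw [Finset.mem_insert, not_or]
    exact ⟨hst.ne', notMem_out hW hst.le le_rfl⟩
  have hu' : u ≠ s → u ∉ insert s W := by
    intro h
    rw [Finset.mem_insert, not_or]
    exact ⟨h, hu.2⟩
  rcases cases5 s t u with h1 | h1 | ⟨h1, h2⟩ | h1 | h1
  · subst h1
    rw [brd_yy_s w hst W hW]
    exact yy_mem_YS w _ _ ht h
  · exact absurd h1 hu.1
  · rw [brd_yy_mid w hst W hW h1 h2]
    exact Subgroup.mul_mem _ (Subgroup.mul_mem _ (Subgroup.inv_mem _ (yy_mem_YS w _ _ ht w))
      (yy_mem_YS w _ _ (hu' h1.ne') h)) (yy_mem_YS w _ _ ht w)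
  · rw [brd_yy_lt w hst W hW h1]
    exact yy_mem_YS w _ _ (hu' h1.ne) h
  · rw [brd_yy_gt w hst W hW h1]
    exact yy_mem_YS w _ _ (hu' (hst.trans h1).ne') h

theorem brd_inv_yy_mem (W : Finset X) (hW : ∀ z ∈ W, z < s ∨ t < z) (u : X) (hu : u ∉ insert s W)
    (h : H) : (brd w hst)⁻¹ (yy w (insert s W) u h) ∈ YS w (insert t W) := by
  rw [Finset.mem_insert, not_or] at hu
  have hs : s ∉ insert t W := by
    rw [Finset.mem_insert, not_or]
    exact ⟨hst.ne, notMem_out hW le_rfl hst.le⟩
  have hu' : u ≠ t → u ∉ insert t W := by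
    intro h
    rw [Finset.mem_insert, not_or]
    exact ⟨h, hu.2⟩
  rcases cases5 s t u with h1 | h1 | ⟨h1, h2⟩ | h1 | h1
  · exact absurd h1 hu.1
  · subst h1
    rw [← brd_yy_s w hst W hW, MulAut.inv_apply_self]
    exact yy_mem_YS w _ _ hs h
  · have e : yy w (insert s W) u h = brd w hst (yy w (insert t W) s w * yy w (insert t W) u h *
        (yy w (insert t W) s w)⁻¹) := by
      rw [map_mul, map_mul, map_inv, brd_yy_mid w hst W hW h1 h2, brd_yy_s w hst W hW]
      group
    rw [e, MulAut.inv_apply_self]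
    exact Subgroup.mul_mem _ (Subgroup.mul_mem _ (yy_mem_YS w _ _ hs w)
      (yy_mem_YS w _ _ (hu' h2.ne) h)) (Subgroup.inv_mem _ (yy_mem_YS w _ _ hs w))
  · rw [← brd_yy_lt w hst W hW h1, MulAut.inv_apply_self]
    exact yy_mem_YS w _ _ (hu' (h1.trans hst).ne) h
  · rw [← brd_yy_gt w hst W hW h1, MulAut.inv_apply_self]
    exact yy_mem_YS w _ _ (hu' h1.ne') h

end brd

end Pool.Agent.U181.BK
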