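import Pool.Agent.U181.BK.Jump

/-!
# Automorphisms which map the data of a finite set to the data of another one
-/

set_option autoImplicit false
set_option linter.unusedSectionVars false

namespace Pool.Agent.U181.BK

open Monoid

variable {X H : Type} [LinearOrder X] [Group H]

/-- `γ` maps the data of the finite set `W` to the data of the finite set `W'` with the same number
of elements: the group generated by the `H_z`, `z ∈ W`, the ordered product of the `w_z`, the group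
`YS w W` of the outer part, and up to conjugacy the elements `k_z`, `k ∈ K`, `z ∈ W` -/
structure Sends (w : H) (K : Set H) (γ : MulAut (FP X H)) (W W' : Finset X) : Prop where
  card : W.card = W'.card
  fz : ∀ x, x ∈ (FZ W : Subgroup (FP X H)) ↔ γ x ∈ (FZ W' : Subgroup (FP X H))
  prd : γ (pr w W) = pr w W'
  ys : ∀ y, y ∈ YS w W ↔ γ y ∈ YS w W'
  fwd : ∀ z ∈ W, ∀ k ∈ K, ∃ z' ∈ W', ∃ k' ∈ K, IsConj (γ (el z k)) (el z' k')
  bwd : ∀ z ∈ W', ∀ k ∈ K, ∃ z' ∈ W, ∃ k' ∈ K, IsConj (γ⁻¹ (el z k)) (el z' k')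

theorem Sends.symm {w : H} {K : Set H} {γ : MulAut (FP X H)} {W W' : Finset X}
    (h : Sends w K γ W W') : Sends w K γ⁻¹ W' W := by
  refine ⟨h.card.symm, fun x => ?_, ?_, fun y => ?_, h.bwd, fun z hz k hk => ?_⟩
  · rw [h.fz (γ⁻¹ x), MulAut.apply_inv_self]
  · rw [← h.prd, MulAut.inv_apply_self]
  · rw [h.ys (γ⁻¹ y), MulAut.apply_inv_self]
  · rw [inv_inv]
    exact h.fwd z hz k hk

theorem Sends.trans {w : H} {K : Set H} {γ δ : MulAut (FP X H)} {W W' W'' : Finset X}
    (h : Sends w K γ W W') (h' : Sends w K δ W' W'') : Sends w K (δ * γ) W W'' := by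
  refine ⟨h.card.trans h'.card, fun x => ?_, ?_, fun y => ?_, fun z hz k hk => ?_,
    fun z hz k hk => ?_⟩
  · rw [h.fz x, h'.fz, MulAut.mul_apply]
  · rw [MulAut.mul_apply, h.prd, h'.prd]
  · rw [h.ys y, h'.ys, MulAut.mul_apply]
  · obtain ⟨z', hz', k', hk', h1⟩ := h.fwd z hz k hk
    obtain ⟨z'', hz'', k'', hk'', h2⟩ := h'.fwd z' hz' k' hk'
    refine ⟨z'', hz'', k'', hk'', ?_⟩
    rw [MulAut.mul_apply]
    exact (δ.toMonoidHom.map_isConj h1).trans h2
  · obtain ⟨z', hz', k', hk', h1⟩ := h'.bwd z hz k hk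
    obtain ⟨z'', hz'', k'', hk'', h2⟩ := h.bwd z' hz' k' hk'
    refine ⟨z'', hz'', k'', hk'', ?_⟩
    rw [mul_inv_rev, MulAut.mul_apply]
    exact ((γ⁻¹ : MulAut (FP X H)).toMonoidHom.map_isConj h1).trans h2

/-! ### extension of automorphisms of the part of `Z` -/

open Classical in
/-- the extension of the restriction of `δ` to the part of `Z` by fixed elements -/
noncomputable def extHom (w : H) (Z : Finset X) (δ : MulAut (FP X H)) : FP X H →* FP X H :=
  lft (fun x => if x ∈ Z then δ.toMonoidHom.comp (el x) else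
    (MulAut.conj ((δ (pr w (Z.filter (· < x))))⁻¹ * pr w (Z.filter (· < x)))).toMonoidHom.comp
      (el x))

theorem extHom_in (w : H) {Z : Finset X} (δ : MulAut (FP X H)) {x : X} (hx : x ∈ Z) (k : H) :
    extHom w Z δ (el x k) = δ (el x k) := by
  unfold extHom
  rw [lft_el, if_pos hx]
  rfl

theorem extHom_out (w : H) {Z : Finset X} (δ : MulAut (FP X H)) {x : X} (hx : x ∉ Z) (k : H) :
    extHom w Z δ (el x k) = ((δ (pr w (Z.filter (· < x))))⁻¹ * pr w (Z.filter (· < x))) * el x k *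
      ((δ (pr w (Z.filter (· < x))))⁻¹ * pr w (Z.filter (· < x)))⁻¹ := by
  unfold extHom
  rw [lft_el, if_neg hx]
  rfl

theorem extHom_FZ (w : H) {Z : Finset X} (δ : MulAut (FP X H)) (x : FP X H)
    (hx : x ∈ (FZ Z : Subgroup (FP X H))) : extHom w Z δ x = δ x := by
  unfold FZ at hx
  induction hx using Subgroup.closure_induction with
  | mem x hx =>
    obtain ⟨z, hz, k, rfl⟩ := hx
    exact extHom_in w δ hz k
  | one => rw [map_one, map_one]
  | mul x y _ _ hx hy => rw [map_mul, map_mul, hx, hy]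
  | inv x _ hx => rw [map_inv, map_inv, hx]

theorem pr_filter_mem (w : H) (Z : Finset X) (x : X) :
    pr w (Z.filter (· < x)) ∈ (FZ Z : Subgroup (FP X H)) :=
  FZ_mono (Finset.filter_subset _ Z) (pr_mem_FZ w _)

theorem extHom_comp (w : H) {Z : Finset X} (δ : MulAut (FP X H))
    (h : ∀ x ∈ (FZ Z : Subgroup (FP X H)), δ⁻¹ x ∈ (FZ Z : Subgroup (FP X H))) :
    (extHom w Z δ).comp (extHom w Z δ⁻¹) = MonoidHom.id _ := by
  apply hom_ext
  intro x k
  rw [MonoidHom.comp_apply, MonoidHom.id_apply]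
  by_cases hx : x ∈ Z
  · rw [extHom_in w δ⁻¹ hx, extHom_FZ w δ _ (h _ (el_mem_FZ hx k)), MulAut.apply_inv_self]
  · rw [extHom_out w δ⁻¹ hx]
    simp only [map_mul, map_inv]
    rw [extHom_FZ w δ _ (h _ (pr_filter_mem w Z x)), extHom_FZ w δ _ (pr_filter_mem w Z x),
      MulAut.apply_inv_self, extHom_out w δ hx]
    group

/-- the extension -/
noncomputable def extAut (w : H) (Z : Finset X) (δ : MulAut (FP X H))
    (h : ∀ x, x ∈ (FZ Z : Subgroup (FP X H)) ↔ δ x ∈ (FZ Z : Subgroup (FP X H))) :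
    MulAut (FP X H) :=
  MonoidHom.toMulEquiv (extHom w Z δ) (extHom w Z δ⁻¹)
    (by
      have := extHom_comp w δ⁻¹ (Z := Z) (fun x hx => by rw [inv_inv]; exact (h x).1 hx)
      rwa [inv_inv] at this)
    (extHom_comp w δ fun x hx => (h _).2 (by rw [MulAut.apply_inv_self]; exact hx))

theorem extAut_apply (w : H) (Z : Finset X) (δ : MulAut (FP X H))
    (h : ∀ x, x ∈ (FZ Z : Subgroup (FP X H)) ↔ δ x ∈ (FZ Z : Subgroup (FP X H))) (x : FP X H) :
    extAut w Z δ h x = extHom w Z δ x := rfl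

theorem extAut_inv_apply (w : H) (Z : Finset X) (δ : MulAut (FP X H))
    (h : ∀ x, x ∈ (FZ Z : Subgroup (FP X H)) ↔ δ x ∈ (FZ Z : Subgroup (FP X H))) (x : FP X H) :
    (extAut w Z δ h)⁻¹ x = extHom w Z δ⁻¹ x := rfl

theorem extHom_good (w : H) {Z : Finset X} (δ : MulAut (FP X H)) (u : X) (hu : u ∉ Z) (k : H) :
    extHom w Z δ (yy w Z u k) = yy w Z u k := by
  unfold yy
  simp only [map_mul, map_inv]
  rw [extHom_FZ w δ _ (pr_filter_mem w Z u), extHom_out w δ hu]
  group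

theorem extAut_mem {w : H} {K : Set H} {Z : Finset X} {δ : MulAut (FP X H)}
    (h : Sends w K δ Z Z) : extAut w Z δ h.fz ∈ Aut w K Z := by
  constructor
  · refine ⟨fun x hx => ?_, ?_, fun u hu k => ?_, fun z hz k hk => ?_⟩
    · rw [extAut_apply, extHom_FZ w δ x hx]
      exact (h.fz x).1 hx
    · rw [extAut_apply, extHom_FZ w δ _ (pr_mem_FZ w Z), h.prd]
    · rw [extAut_apply, extHom_good w _ u hu]
    · rw [extAut_apply, extHom_in w δ hz]
      exact h.fwd z hz k hk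
  · refine ⟨fun x hx => ?_, ?_, fun u hu k => ?_, fun z hz k hk => ?_⟩
    · rw [extAut_inv_apply, extHom_FZ w δ⁻¹ x hx]
      exact (h.symm.fz x).1 hx
    · rw [extAut_inv_apply, extHom_FZ w δ⁻¹ _ (pr_mem_FZ w Z), h.symm.prd]
    · rw [extAut_inv_apply, extHom_good w _ u hu]
    · rw [extAut_inv_apply, extHom_in w δ⁻¹ hz]
      exact h.bwd z hz k hk

theorem exists_mono_image (W W' : Finset X) (h : W.card = W'.card) :
    ∃ f : X → X, StrictMonoOn f (W : Set X) ∧ W.image f = W' := by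
  classical
  let g : W → W' := fun x => W'.orderIsoOfFin h.symm ((W.orderIsoOfFin rfl).symm x)
  have hg : StrictMono g := by
    intro a b hab
    exact (W'.orderIsoOfFin h.symm).strictMono ((W.orderIsoOfFin rfl).symm.strictMono hab)
  have hs : Function.Surjective g := by
    intro y
    refine ⟨W.orderIsoOfFin rfl ((W'.orderIsoOfFin h.symm).symm y), ?_⟩
    show W'.orderIsoOfFin h.symm ((W.orderIsoOfFin rfl).symm (W.orderIsoOfFin rfl _)) = y
    rw [OrderIso.symm_apply_apply, OrderIso.apply_symm_apply]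
  refine ⟨fun x => if hx : x ∈ W then (g ⟨x, hx⟩ : X) else x, ?_, ?_⟩
  · intro a ha b hb hab
    have ha' : a ∈ W := ha
    have hb' : b ∈ W := hb
    simp only [ha', hb', dif_pos]
    exact hg (a := ⟨a, ha'⟩) (b := ⟨b, hb'⟩) hab
  · ext y
    rw [Finset.mem_image]
    constructor
    · rintro ⟨x, hx, rfl⟩
      simp only [hx, dif_pos]
      exact (g ⟨x, hx⟩).2
    · intro hy
      obtain ⟨x, hx⟩ := hs ⟨y, hy⟩
      refine ⟨x, x.2, ?_⟩
      simp only [x.2, dif_pos]
      rw [Subtype.coe_eta, hx]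

/-- an automorphism in `BX w` which moves `W` increasingly to `W'` sends the data -/
theorem sends_of_RR {w : H} {K : Set H} {Z : Finset X} {f : X → X} {c : MulAut (FP X H)}
    (h : RR w Z id f c) (hf : StrictMonoOn f (Z : Set X)) : Sends w K c Z (Z.image f) := by
  have hF : ∀ x ∈ (FZ Z : Subgroup (FP X H)), c x ∈ (FZ (Z.image f) : Subgroup (FP X H)) := by
    intro x hx
    exact h.FZ x (by rw [Finset.image_id]; exact hx)
  have hB : ∀ x ∈ (FZ (Z.image f) : Subgroup (FP X H)), c⁻¹ x ∈ (FZ Z : Subgroup (FP X H)) := by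
    intro x hx
    have := h.symm.FZ x hx
    rwa [Finset.image_id] at this
  have hY1 := h.fwd
  have hY2 := h.bwd
  rw [Finset.image_id] at hY1 hY2
  refine ⟨?_, fun x => ⟨hF x, fun hx => ?_⟩, ?_, fun y => ⟨hY1 y, fun hy => ?_⟩,
    fun z hz k hk => ?_, fun z hz k hk => ?_⟩
  · rw [Finset.card_image_of_injOn hf.injOn]
  · have := hB _ hx
    rwa [MulAut.inv_apply_self] at this
  · have := h.pr (StrictMonoOn_id Z) hf
    rwa [Finset.image_id] at this
  · have := hY2 _ hy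
    rwa [MulAut.inv_apply_self] at this
  · refine ⟨f z, Finset.mem_image_of_mem f hz, k, hk, ?_⟩
    have e : c (el z k) = el (f z) k := h.val z hz k
    rw [e]
  · rw [Finset.mem_image] at hz
    obtain ⟨z₁, hz₁, rfl⟩ := hz
    refine ⟨z₁, hz₁, k, hk, ?_⟩
    have e : c⁻¹ (el (f z₁) k) = el z₁ k := h.symm.val z₁ hz₁ k
    rw [e]

/-- if `γ` sends the data of `W` to the data of `W'` then it agrees there with an element of
`AX w K` -/
theorem Sends.tr {w : H} {K : Set H} {γ : MulAut (FP X H)} {W W' : Finset X}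
    (h : Sends w K γ W W') : ∃ b ∈ AX w K, Tr w W (b⁻¹ * γ) := by
  obtain ⟨f, hf, hfW⟩ := exists_mono_image W W' h.card
  obtain ⟨c, hc, hR⟩ := conn w W id f (StrictMonoOn_id W) hf
  obtain ⟨V, hV⟩ := (system_Aut (X := X) w K).exists_mem_BX c hc
  have hS : Sends w K c W W' := by
    have := sends_of_RR (K := K) hR hf
    rwa [hfW] at this
  have hD : Sends w K (c⁻¹ * γ) W W := h.trans hS.symm
  have hE := extAut_mem hD
  refine ⟨c * extAut w W (c⁻¹ * γ) hD.fz, mul_mem ⟨V, hV⟩ ⟨W, hE⟩, ?_⟩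
  have e1 : (c * extAut w W (c⁻¹ * γ) hD.fz)⁻¹ * γ =
      (extAut w W (c⁻¹ * γ) hD.fz)⁻¹ * (c⁻¹ * γ) := by group
  rw [e1]
  refine ⟨fun z hz k => ?_, fun y hy => ?_, fun y hy => ?_⟩
  · have e2 : (c⁻¹ * γ) (el z k) = extAut w W (c⁻¹ * γ) hD.fz (el z k) := by
      rw [extAut_apply, extHom_in w _ hz]
    rw [MulAut.mul_apply, e2, MulAut.inv_apply_self]
  · rw [MulAut.mul_apply, hE.2.fixY _ ((hD.ys y).1 hy)]
    exact (hD.ys y).1 hy
  · rw [mul_inv_rev, inv_inv, MulAut.mul_apply, hE.1.fixY _ hy]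
    rw [hD.ys, MulAut.apply_inv_self]
    exact hy

theorem mem_HX_of_sends {w : H} {K : Set H} {γ : MulAut (FP X H)}
    (h1 : ∀ Z : Finset X, ∃ W W', Z ⊆ W ∧ Sends w K γ W W')
    (h2 : ∀ Z : Finset X, ∃ W W', Z ⊆ W' ∧ Sends w K γ W W') : γ ∈ HX w K := by
  constructor
  · apply Loc.of_large
    intro Z
    obtain ⟨W, W', hZ, h⟩ := h1 Z
    exact ⟨W, hZ, h.tr⟩
  · apply Loc.of_large
    intro Z
    obtain ⟨W, W', hZ, h⟩ := h2 Z
    exact ⟨W', hZ, h.symm.tr⟩

end Pool.Agent.U181.BK
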